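import Pool.Agent.H68.CQ.Removal

/-!
# The dimension lemma

If `a * ∏ P (x b) * (P (x e) - 1) ≠ 0` for all sublists of a list of `m` pairs `(b, e)` of letters,
with `b` distinct and different from all `e`, then `2 ^ m` is at most the dimension of the algebra.
-/

set_option autoImplicit false

namespace Pool.Agent.H68.CQ

open Subgroup Module

variable {n : ℕ} {G : Type*} [Group G] {F : Type*} [Field F] {A : Type*} [Ring A] [Algebra F A]
  {x : Fin n → G} {P : G →* A}

/-- The product of the elements `P (x b) * (P (x e) - 1)` over a list of pairs `(b, e)`. -/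
def Th (x : Fin n → G) (P : G →* A) : List (Fin n × Fin n) → A
  | [] => 1
  | be :: l => P (x be.1) * (P (x be.2) - 1) * Th x P l

/-- The span of the ordered products of the elements `P (x b)`. -/
def Zs (F : Type*) [Field F] [Algebra F A] (x : Fin n → G) (P : G →* A) :
    List (Fin n × Fin n) → Submodule F A
  | [] => Submodule.span F {1}
  | be :: l => Zs F x P l ⊔ (Zs F x P l).map (LinearMap.mulLeft F (P (x be.1)))

lemma Zs_le (l : List (Fin n × Fin n)) :
    ∀ z ∈ Zs F x P l, z ∈ alg F x P {i | i ∈ l.map Prod.fst} := by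
  induction l with
  | nil =>
    intro z hz
    rw [Zs, Submodule.mem_span_singleton] at hz
    obtain ⟨c, rfl⟩ := hz
    exact Subalgebra.smul_mem _ (one_mem _) c
  | cons be l ih =>
    intro z hz
    have h1 : alg F x P {i | i ∈ l.map Prod.fst} ≤ alg F x P {i | i ∈ (be :: l).map Prod.fst} := by
      apply alg_mono
      intro i hi
      change i ∈ (be :: l).map Prod.fst
      rw [List.map_cons]
      exact List.mem_cons_of_mem _ hi
    rw [Zs, Submodule.mem_sup] at hz
    obtain ⟨y, hy, w, hw, rfl⟩ := hz
    obtain ⟨w', hw', rfl⟩ := (Submodule.mem_map).1 hw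
    refine add_mem (h1 (ih y hy)) (mul_mem (mem_alg_letter ?_) (h1 (ih w' hw')))
    simp

lemma dim_aux [FiniteDimensional F A] (D : A →ₗ[F] A) {U W : Submodule F A} (hUW : U ≤ W)
    (hD : ∀ u ∈ U, D u = 0) : finrank F U + finrank F (W.map D) ≤ finrank F W := by
  have h1 := LinearMap.finrank_range_add_finrank_ker (D.domRestrict W)
  have h2 : LinearMap.range (D.domRestrict W) = W.map D := by
    rw [LinearMap.range_domRestrict]
  have h3 : finrank F U ≤ finrank F (LinearMap.ker (D.domRestrict W)) := by
    let g : U →ₗ[F] LinearMap.ker (D.domRestrict W) :=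
      LinearMap.codRestrict _ (Submodule.inclusion hUW) (fun u => by
        rw [LinearMap.mem_ker]
        exact hD u.1 u.2)
    apply LinearMap.finrank_le_finrank_of_injective (f := g)
    intro u v huv
    have h4 : ((g u : W) : A) = ((g v : W) : A) := by rw [huv]
    exact Subtype.ext h4
  rw [h2] at h1
  omega

/-- The dimension lemma. -/
theorem HasTr.dim (hT : HasTr F x P) [FiniteDimensional F A] (l : List (Fin n × Fin n)) :
    ∀ (Q : Set (Fin n)) (a : A), a ∈ alg F x P Q → (l.map Prod.fst).Nodup →
      (∀ b ∈ l.map Prod.fst, b ∉ Q) → (∀ e ∈ l.map Prod.snd, e ∉ l.map Prod.fst) →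
      (∀ s, s.Sublist l → a * Th x P s ≠ 0) →
      2 ^ l.length ≤ finrank F ((Zs F x P l).map (LinearMap.mulLeft F a)) := by
  induction l with
  | nil =>
    intro Q a _ _ _ _ h
    have h1 := h [] (List.Sublist.refl _)
    rw [Th, mul_one] at h1
    rw [Zs, Submodule.map_span, Set.image_singleton, LinearMap.mulLeft_apply, mul_one,
      finrank_span_singleton h1]
    simp
  | cons be l ih =>
    obtain ⟨b, e⟩ := be
    intro Q a ha hnd hQ he h
    rw [List.map_cons, List.nodup_cons] at hnd
    simp only [List.map_cons, List.mem_cons, forall_eq_or_imp, not_or] at hQ he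
    obtain ⟨hb, hnd⟩ := hnd
    obtain ⟨hbQ, hQ⟩ := hQ
    obtain ⟨⟨heb, hel⟩, he⟩ := he
    obtain ⟨T, hT1, hT2, -⟩ := hT.exists_T b (u := 1) (v := x e) (one_mem _)
      (subset_closure ⟨e, heb, rfl⟩)
    have hTa : T a = a := hT1 Q hbQ a ha
    have hTz : ∀ z ∈ Zs F x P l, T z = z := fun z hz =>
      hT1 {i | i ∈ l.map Prod.fst} hb z (Zs_le l z hz)
    -- the two instances of the induction hypothesis
    have i1 := ih Q a ha hnd hQ (fun e' he' => (he e' he').2)
      (fun s hs => h s (hs.trans (List.sublist_cons_self _ _)))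
    have i2 := ih (Q ∪ {b, e}) (a * (P (x b) * (P (x e) - 1)))
      (mul_mem (alg_mono Set.subset_union_left ha)
        (mul_mem (mem_alg_letter (by simp)) (sub_mem (mem_alg_letter (by simp)) (one_mem _))))
      hnd (by
        intro b' hb'
        simp only [Set.union_insert, Set.mem_insert_iff, Set.union_singleton, not_or]
        refine ⟨?_, ?_, hQ b' hb'⟩
        · rintro rfl; exact hb hb'
        · rintro rfl; exact hel hb')
      (fun e' he' => (he e' he').2) (by
        intro s hs
        have h1 := h ((b, e) :: s) (List.Sublist.cons_cons _ hs)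
        rw [Th] at h1
        rw [mul_assoc]
        exact h1)
    let D : A →ₗ[F] A := T.toLinearMap - LinearMap.id
    have hUW : (Zs F x P l).map (LinearMap.mulLeft F a) ≤
        (Zs F x P ((b, e) :: l)).map (LinearMap.mulLeft F a) := by
      apply Submodule.map_mono
      rw [Zs]
      exact le_sup_left
    have h3 := dim_aux D hUW (by
      rintro _ ⟨z, hz, rfl⟩
      change T (a * z) - a * z = 0
      rw [map_mul, hTa, hTz z hz, sub_self])
    have h4 : (Zs F x P l).map (LinearMap.mulLeft F (a * (P (x b) * (P (x e) - 1)))) ≤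
        ((Zs F x P ((b, e) :: l)).map (LinearMap.mulLeft F a)).map D := by
      rintro _ ⟨z, hz, rfl⟩
      refine ⟨a * (P (x b) * z), ⟨P (x b) * z, ?_, rfl⟩, ?_⟩
      · change P (x b) * z ∈ Zs F x P ((b, e) :: l)
        rw [Zs]
        exact Submodule.mem_sup_right ⟨z, hz, rfl⟩
      · change T (a * (P (x b) * z)) - a * (P (x b) * z) = a * (P (x b) * (P (x e) - 1)) * z
        rw [map_mul, map_mul, hTa, hTz z hz, hT2, one_mul, map_mul P]
        noncomm_ring
    have h5 := Submodule.finrank_mono h4
    rw [List.length_cons, pow_succ]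
    omega

/-- In an algebra of dimension less than `2 ^ m`, for every list of `m` pairs some product
vanishes. -/
theorem HasTr.exists_zero (hT : HasTr F x P) [FiniteDimensional F A] (l : List (Fin n × Fin n))
    (hA : finrank F A < 2 ^ l.length) (hnd : (l.map Prod.fst).Nodup)
    (he : ∀ e ∈ l.map Prod.snd, e ∉ l.map Prod.fst) : ∃ s, s.Sublist l ∧ Th x P s = 0 := by
  by_contra hcon
  push Not at hcon
  have h1 := hT.dim l ∅ 1 (one_mem _) hnd (fun _ _ h => h) he (fun s hs => by
    rw [one_mul]; exact hcon s hs)
  have h2 := Submodule.finrank_le ((Zs F x P l).map (LinearMap.mulLeft F (1 : A)))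
  omega

end Pool.Agent.H68.CQ
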