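import Pool.Agent.H68.CQ.Model

/-!
# Lifting homogeneous tuples through projective representations

Let `x` be a homogeneous tuple of at least four elements of a group `G` with trivial center such
that the substitutions `x i ↦ u * x i * v` are inner.  If `G` acts on a central algebra `A` and
`x l` acts as the conjugation with a unit `Y l`, then the units `Y l` can be multiplied with scalars
such that all these substitutions are induced by the action of `G` on `A` on the tuple itself.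
-/

set_option autoImplicit false

namespace Pool.Agent.H68.CQ

open Subgroup Module Pool.Agent.H5CS
open scoped commutatorElement

section lift

variable {n : ℕ} {G : Type*} [Group G] {F : Type*} [Field F] {A : Type*} [Ring A] [Algebra F A]
  {x : Fin n → G}

/-- The unit `a` induces the automorphism `θ g`. -/
def Lf (θ : G →* (A ≃ₐ[F] A)) (g : G) (a : Aˣ) : Prop :=
  ∀ t : A, θ g t = (a : A) * t * ((a⁻¹ : Aˣ) : A)

lemma theta_mul (θ : G →* (A ≃ₐ[F] A)) (g h : G) (t : A) : θ (g * h) t = θ g (θ h t) := by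
  rw [map_mul, AlgEquiv.mul_apply]

lemma theta_inv_self (θ : G →* (A ≃ₐ[F] A)) (g : G) (t : A) : θ g (θ g⁻¹ t) = t := by
  rw [← theta_mul, mul_inv_cancel, map_one, AlgEquiv.one_apply]

lemma theta_inj (θ : G →* (A ≃ₐ[F] A)) (g : G) {s t : A} (h : θ g s = θ g t) : s = t :=
  (θ g).injective h

lemma Lf.scal [Nontrivial A] {θ : G →* (A ≃ₐ[F] A)}
    (hcen : ∀ a : A, (∀ t, a * t = t * a) → ∃ c : F, a = algebraMap F A c) {g h k : G} {a b : Aˣ}
    (ha : Lf θ h a) (hb : Lf θ k b) (hk : g * h * g⁻¹ = k) :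
    ∃ c : F, c ≠ 0 ∧ θ g (a : A) = c • (b : A) := by
  have h1 : θ g (a : A) * θ g ((a⁻¹ : Aˣ) : A) = 1 := by
    rw [← map_mul, Units.mul_inv, map_one]
  have h2 : θ g ((a⁻¹ : Aˣ) : A) * θ g (a : A) = 1 := by
    rw [← map_mul, Units.inv_mul, map_one]
  have h3 : ∀ t : A, (b : A) * t * ((b⁻¹ : Aˣ) : A) =
      θ g (a : A) * t * θ g ((a⁻¹ : Aˣ) : A) := by
    intro t
    rw [← hb t, ← hk, theta_mul, theta_mul, ha, map_mul, map_mul, theta_inv_self]
  obtain ⟨c, hc⟩ := hcen (((b⁻¹ : Aˣ) : A) * θ g (a : A)) (by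
    intro t
    calc ((b⁻¹ : Aˣ) : A) * θ g (a : A) * t
        = ((b⁻¹ : Aˣ) : A) * (θ g (a : A) * t * (θ g ((a⁻¹ : Aˣ) : A) * θ g (a : A))) := by
          rw [h2, mul_one, mul_assoc]
      _ = ((b⁻¹ : Aˣ) : A) * ((θ g (a : A) * t * θ g ((a⁻¹ : Aˣ) : A)) * θ g (a : A)) := by
          simp only [mul_assoc]
      _ = (((b⁻¹ : Aˣ) : A) * (b : A)) * (t * (((b⁻¹ : Aˣ) : A) * θ g (a : A))) := by
          rw [← h3 t]
          simp only [mul_assoc]
      _ = t * (((b⁻¹ : Aˣ) : A) * θ g (a : A)) := by rw [Units.inv_mul, one_mul])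
  have h4 : θ g (a : A) = c • (b : A) := by
    calc θ g (a : A) = (b : A) * (((b⁻¹ : Aˣ) : A) * θ g (a : A)) := by
          rw [← mul_assoc, Units.mul_inv, one_mul]
      _ = c • (b : A) := by rw [hc, ← Algebra.commutes, Algebra.smul_def]
  refine ⟨c, ?_, h4⟩
  rintro rfl
  rw [zero_smul] at h4
  rw [h4, zero_mul] at h1
  exact zero_ne_one h1

lemma exists_ne3 (hn : 4 ≤ n) (i l j : Fin n) : ∃ m, m ≠ i ∧ m ≠ l ∧ m ≠ j := by
  classical
  by_contra hcon
  push Not at hcon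
  have h1 : (Finset.univ : Finset (Fin n)) ⊆ {i, l, j} := by
    intro m _
    simp only [Finset.mem_insert, Finset.mem_singleton]
    by_contra h
    rw [not_or, not_or] at h
    exact h.2.2 (hcon m h.1 h.2.1)
  have h2 := Finset.card_le_card h1
  rw [Finset.card_univ, Fintype.card_fin] at h2
  have h3 : ({i, l, j} : Finset (Fin n)).card ≤ 3 := Finset.card_le_three
  omega

lemma units_smul_inj [Nontrivial A] {c c' : F} {a : A} (u : Aˣ) (ha : a = u)
    (h : c • a = c' • a) : c = c' := by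
  subst ha
  have h1 : (c - c') • (u : A) = 0 := by rw [sub_smul, h, sub_self]
  have h2 : (c - c') • (1 : A) = 0 := by
    rw [← Units.mul_inv u, ← smul_mul_assoc, h1, zero_mul]
  have h3 := (smul_eq_zero.1 h2).resolve_right one_ne_zero
  exact sub_eq_zero.1 h3

/-- Elements of `G` which induce substitutions: the data of the elements `g`. -/
def Sub (x : Fin n → G) (i : Fin n) (w : G) (g : G) : Prop :=
  (∀ j, j ≠ i → g * x j * g⁻¹ = x j) ∧ g * x i * g⁻¹ = w

lemma exists_sub (hx : Homog x) (hE : ∀ φ, IsTr x φ → φ ∈ (MulAut.conj (G := G)).range)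
    (i : Fin n) {u v : G} (hu : u ∈ closure (x '' {j | j ≠ i}))
    (hv : v ∈ closure (x '' {j | j ≠ i})) : ∃ g, Sub x i (u * x i * v) g := by
  obtain ⟨φ, h0, h1, h2⟩ := hx.exTr i (inv_mem hu) hv
  obtain ⟨g, rfl⟩ := hE φ h0
  refine ⟨g, ?_, ?_⟩
  · intro j hj
    exact h1 j hj
  · rw [inv_inv] at h2
    exact h2

lemma rel_right (hx : Homog x) (hinj : Function.Injective (MulAut.conj (G := G))) {i l m : Fin n}
    (hli : l ≠ i) (hmi : m ≠ i) (hlm : l ≠ m) {a b c : G} (ha : Sub x i (x i * x m) a)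
    (hc : Sub x i (x i * x l) c) (hb : Sub x m (x m * x l) b) : a * c * b = b * a := by
  apply hinj
  apply hx.ext
  intro j
  have a1 : ∀ j, j ≠ i → MulAut.conj a (x j) = x j := ha.1
  have a2 : MulAut.conj a (x i) = x i * x m := ha.2
  have b1 : ∀ j, j ≠ m → MulAut.conj b (x j) = x j := hb.1
  have b2 : MulAut.conj b (x m) = x m * x l := hb.2
  have c1 : ∀ j, j ≠ i → MulAut.conj c (x j) = x j := hc.1
  have c2 : MulAut.conj c (x i) = x i * x l := hc.2
  rw [map_mul, map_mul, map_mul, MulAut.mul_apply, MulAut.mul_apply, MulAut.mul_apply]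
  by_cases hji : j = i
  · subst hji
    rw [b1 j hmi.symm, c2, map_mul, a2, a1 l hli, map_mul, b1 j hmi.symm, b2, mul_assoc]
  · by_cases hjm : j = m
    · subst hjm
      rw [b2, map_mul, c1 j hji, c1 l hli, map_mul, a1 j hji, a1 l hli, b2]
    · rw [b1 j hjm, c1 j hji, a1 j hji, b1 j hjm]

lemma rel_left (hx : Homog x) (hinj : Function.Injective (MulAut.conj (G := G))) {i l m : Fin n}
    (hli : l ≠ i) (hmi : m ≠ i) (hlm : l ≠ m) {a b c : G} (ha : Sub x i (x m * x i) a)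
    (hc : Sub x i (x l * x i) c) (hb : Sub x m (x l * x m) b) : a * c * b = b * a := by
  apply hinj
  apply hx.ext
  intro j
  have a1 : ∀ j, j ≠ i → MulAut.conj a (x j) = x j := ha.1
  have a2 : MulAut.conj a (x i) = x m * x i := ha.2
  have b1 : ∀ j, j ≠ m → MulAut.conj b (x j) = x j := hb.1
  have b2 : MulAut.conj b (x m) = x l * x m := hb.2
  have c1 : ∀ j, j ≠ i → MulAut.conj c (x j) = x j := hc.1
  have c2 : MulAut.conj c (x i) = x l * x i := hc.2
  rw [map_mul, map_mul, map_mul, MulAut.mul_apply, MulAut.mul_apply, MulAut.mul_apply]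
  by_cases hji : j = i
  · subst hji
    rw [b1 j hmi.symm, c2, map_mul, a2, a1 l hli, map_mul, b1 j hmi.symm, b2, mul_assoc]
  · by_cases hjm : j = m
    · subst hjm
      rw [b2, map_mul, c1 j hji, c1 l hli, map_mul, a1 j hji, a1 l hli, b2]
    · rw [b1 j hjm, c1 j hji, a1 j hji, b1 j hjm]

lemma fix_gen [Nontrivial A] {θ : G →* (A ≃ₐ[F] A)}
    (hcen : ∀ a : A, (∀ t, a * t = t * a) → ∃ c : F, a = algebraMap F A c) {h : G} {y : Aˣ}
    (hy : Lf θ h y) {a b c : G} (ha : a * h * a⁻¹ = h) (hb : b * h * b⁻¹ = h)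
    (hc : c * h * c⁻¹ = h) (hrel : a * c * b = b * a) : θ c (y : A) = y := by
  obtain ⟨α, hα, h1⟩ := hy.scal hcen hy ha
  obtain ⟨β, hβ, h2⟩ := hy.scal hcen hy hb
  obtain ⟨γ, hγ, h3⟩ := hy.scal hcen hy hc
  have h4 : θ (a * c * b) (y : A) = θ (b * a) (y : A) := by rw [hrel]
  rw [theta_mul, theta_mul, theta_mul, h2, map_smul, h3, map_smul, map_smul, h1, map_smul, h2,
    smul_smul, smul_smul, smul_smul] at h4
  have h5 := units_smul_inj y rfl h4
  have h6 : γ = 1 := by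
    have h7 : (α * β) * γ = (α * β) * 1 := by linear_combination h5
    exact mul_left_cancel₀ (mul_ne_zero hα hβ) h7
  rw [h3, h6, one_smul]

lemma Lf.mul {θ : G →* (A ≃ₐ[F] A)} {g h : G} {a b : Aˣ} (ha : Lf θ g a) (hb : Lf θ h b) :
    Lf θ (g * h) (a * b) := by
  intro t
  rw [theta_mul, hb t, ha, mul_inv_rev, Units.val_mul, Units.val_mul]
  simp only [mul_assoc]

/-- The tuple of units with exact substitutions of right type. -/
lemma lift_right [Nontrivial A] (hx : Homog x) (hn : 4 ≤ n)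
    (hinj : Function.Injective (MulAut.conj (G := G))) (θ : G →* (A ≃ₐ[F] A))
    (hcen : ∀ a : A, (∀ t, a * t = t * a) → ∃ c : F, a = algebraMap F A c) (Y : Fin n → Aˣ)
    (hY : ∀ l, Lf θ (x l) (Y l)) {r : Fin n → Fin n → G}
    (hr : ∀ i l, l ≠ i → Sub x i (x i * x l) (r i l)) :
    ∃ Z : Fin n → Aˣ, (∀ l, Lf θ (x l) (Z l)) ∧ ∀ i l, l ≠ i →
      (∀ j, j ≠ i → θ (r i l) (Z j : A) = Z j) ∧ θ (r i l) (Z i : A) = Z i * Z l := by
  have hfix : ∀ i l, l ≠ i → ∀ j, j ≠ i → θ (r i l) (Y j : A) = Y j := by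
    intro i l hli j hji
    obtain ⟨m, hmi, hml, hmj⟩ := exists_ne3 hn i l j
    exact fix_gen hcen (hY j) ((hr i m hmi).1 j hji) ((hr m l hml.symm).1 j hmj.symm)
      ((hr i l hli).1 j hji)
      (rel_right hx hinj hli hmi hml.symm (hr i m hmi) (hr i l hli) (hr m l hml.symm))
  have hz : ∀ i l, l ≠ i → ∃ c : F, c ≠ 0 ∧ θ (r i l) (Y i : A) = c • ((Y i : A) * Y l) := by
    intro i l hli
    obtain ⟨c, hc, h1⟩ := (hY i).scal hcen ((hY i).mul (hY l)) (hr i l hli).2
    exact ⟨c, hc, h1⟩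
  choose! ζ hζ0 hζ using hz
  have hζeq : ∀ i l m, l ≠ i → m ≠ i → l ≠ m → ζ i l = ζ m l := by
    intro i l m hli hmi hlm
    have hrel := rel_right hx hinj hli hmi hlm (hr i m hmi) (hr i l hli) (hr m l hlm)
    have h1 : θ (r i m * r i l * r m l) (Y i : A) = θ (r m l * r i m) (Y i : A) := by rw [hrel]
    rw [theta_mul, theta_mul, theta_mul, hfix m l hlm i hmi.symm, hζ i l hli, map_smul, map_mul,
      hζ i m hmi, hfix i m hmi l hli, map_smul, map_mul, hfix m l hlm i hmi.symm, hζ m l hlm,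
      smul_mul_assoc, mul_smul_comm, smul_smul, smul_smul, mul_assoc] at h1
    have h2 := units_smul_inj (Y i * (Y m * Y l)) (by rw [Units.val_mul, Units.val_mul]) h1
    have h3 : ζ i m * ζ i l = ζ i m * ζ m l := by linear_combination h2
    exact mul_left_cancel₀ (hζ0 i m hmi) h3
  have hi0 : ∀ l : Fin n, ∃ i, l ≠ i := by
    intro l
    obtain ⟨m, hm, -⟩ := exists_ne3 hn l l l
    exact ⟨m, hm.symm⟩
  choose i₀ hi₀ using hi0
  have hc : ∀ i l, l ≠ i → ζ i l = ζ (i₀ l) l := by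
    intro i l hli
    by_cases h : i₀ l = i
    · rw [h]
    · exact hζeq i l (i₀ l) hli h (hi₀ l)
  have hZ : ∀ l, ∃ z : Aˣ, (z : A) = ζ (i₀ l) l • (Y l : A) ∧ Lf θ (x l) z := by
    intro l
    refine ⟨Units.map (algebraMap F A).toMonoidHom (Units.mk0 _ (hζ0 _ l (hi₀ l))) * Y l, ?_, ?_⟩
    · rw [Units.val_mul, Algebra.smul_def]
      rfl
    · intro t
      rw [hY l t, mul_inv_rev, Units.val_mul, Units.val_mul, ← map_inv]
      change _ = algebraMap F A (ζ (i₀ l) l) * (Y l : A) * t *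
        (((Y l)⁻¹ : Aˣ) * algebraMap F A (ζ (i₀ l) l)⁻¹)
      rw [← mul_assoc, ← Algebra.commutes ((ζ (i₀ l) l)⁻¹), ← mul_assoc, ← mul_assoc, ← mul_assoc,
        ← map_mul, inv_mul_cancel₀ (hζ0 _ l (hi₀ l)), map_one, one_mul]
  choose Z hZ1 hZ2 using hZ
  refine ⟨Z, hZ2, ?_⟩
  intro i l hli
  constructor
  · intro j hji
    rw [hZ1, map_smul, hfix i l hli j hji]
  · rw [hZ1 i, hZ1 l, map_smul, hζ i l hli, hc i l hli, smul_mul_assoc, mul_smul_comm]

/-- The tuple of units with exact substitutions. -/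
theorem lift_tuple [Nontrivial A] (hx : Homog x) (hn : 4 ≤ n)
    (hE : ∀ φ, IsTr x φ → φ ∈ (MulAut.conj (G := G)).range)
    (hinj : Function.Injective (MulAut.conj (G := G))) (θ : G →* (A ≃ₐ[F] A))
    (hcen : ∀ a : A, (∀ t, a * t = t * a) → ∃ c : F, a = algebraMap F A c) (Y : Fin n → Aˣ)
    (hY : ∀ l, Lf θ (x l) (Y l)) :
    ∃ Z : Fin n → Aˣ, (∀ l, Lf θ (x l) (Z l)) ∧ ∀ i l, l ≠ i →
      (∃ g : G, (∀ j, j ≠ i → θ g (Z j : A) = Z j) ∧ θ g (Z i : A) = Z i * Z l) ∧
      (∃ g : G, (∀ j, j ≠ i → θ g (Z j : A) = Z j) ∧ θ g (Z i : A) = Z l * Z i) := by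
  classical
  have hr0 : ∀ i l, l ≠ i → ∃ g, Sub x i (x i * x l) g := by
    intro i l hli
    obtain ⟨g, hg⟩ := exists_sub hx hE i (u := 1) (v := x l) (one_mem _) (mem_ne hli)
    rw [one_mul] at hg
    exact ⟨g, hg⟩
  have hs0 : ∀ i l, l ≠ i → ∃ g, Sub x i (x l * x i) g := by
    intro i l hli
    obtain ⟨g, hg⟩ := exists_sub hx hE i (u := x l) (v := 1) (mem_ne hli) (one_mem _)
    rw [mul_one] at hg
    exact ⟨g, hg⟩
  choose! r hr using hr0
  choose! s hs using hs0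
  obtain ⟨Z, hZ, hZr⟩ := lift_right hx hn hinj θ hcen Y hY hr
  have hfix : ∀ i l, l ≠ i → ∀ j, j ≠ i → θ (s i l) (Z j : A) = Z j := by
    intro i l hli j hji
    obtain ⟨m, hmi, hml, hmj⟩ := exists_ne3 hn i l j
    exact fix_gen hcen (hZ j) ((hs i m hmi).1 j hji) ((hs m l hml.symm).1 j hmj.symm)
      ((hs i l hli).1 j hji)
      (rel_left hx hinj hli hmi hml.symm (hs i m hmi) (hs i l hli) (hs m l hml.symm))
  -- the elements `D i l` acting as `x i ↦ x l * x i * (x l)⁻¹`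
  have hD1 : ∀ i l, l ≠ i → ∀ j, j ≠ i → MulAut.conj ((r i l)⁻¹ * s i l) (x j) = x j := by
    intro i l hli j hji
    apply (MulAut.conj (r i l)).injective
    rw [← MulAut.mul_apply, ← map_mul, mul_inv_cancel_left]
    exact ((hs i l hli).1 j hji).trans ((hr i l hli).1 j hji).symm
  have hD2 : ∀ i l, l ≠ i → MulAut.conj ((r i l)⁻¹ * s i l) (x i) = x l * x i * (x l)⁻¹ := by
    intro i l hli
    apply (MulAut.conj (r i l)).injective
    have h1 : MulAut.conj (r i l) (x i) = x i * x l := (hr i l hli).2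
    have h2 : MulAut.conj (r i l) (x l) = x l := (hr i l hli).1 l hli
    have h3 : MulAut.conj (s i l) (x i) = x l * x i := (hs i l hli).2
    rw [← MulAut.mul_apply, ← map_mul, mul_inv_cancel_left, h3, map_mul, map_mul, map_inv, h1, h2]
    group
  have hD3 : ∀ i l, l ≠ i → ∀ j, j ≠ i → θ ((r i l)⁻¹ * s i l) (Z j : A) = Z j := by
    intro i l hli j hji
    apply theta_inj θ (r i l)
    rw [← theta_mul, mul_inv_cancel_left, hfix i l hli j hji, (hZr i l hli).1 j hji]
  refine ⟨Z, hZ, ?_⟩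
  intro i l hli
  refine ⟨⟨r i l, hZr i l hli⟩, ⟨s i l, hfix i l hli, ?_⟩⟩
  obtain ⟨c, hc, hc1⟩ := (hZ i).scal hcen ((hZ l).mul (hZ i)) (hs i l hli).2
  rw [Units.val_mul] at hc1
  have hclaim : ∀ J : Finset (Fin n), i ∉ J → l ∉ J → ∃ g : G, θ g (Z i : A) = Z i ∧
      θ g (Z l : A) = Z l ∧ (∀ j, j ∈ J → MulAut.conj g (x j) = x l * x j * (x l)⁻¹) ∧
      (∀ j, j ∉ J → MulAut.conj g (x j) = x j) := by
    intro J
    induction J using Finset.induction_on with
    | empty =>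
      intro _ _
      refine ⟨1, ?_, ?_, ?_, ?_⟩
      · rw [map_one, AlgEquiv.one_apply]
      · rw [map_one, AlgEquiv.one_apply]
      · intro j hj
        exact absurd hj (Finset.notMem_empty j)
      · intro j _
        rw [map_one, MulAut.one_apply]
    | insert k J hkJ ih =>
      intro hi hl
      rw [Finset.mem_insert, not_or] at hi hl
      obtain ⟨g, g1, g2, g3, g4⟩ := ih hi.2 hl.2
      refine ⟨g * ((r k l)⁻¹ * s k l), ?_, ?_, ?_, ?_⟩
      · rw [theta_mul, hD3 k l hl.1 i hi.1, g1]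
      · rw [theta_mul, hD3 k l hl.1 l hl.1, g2]
      · intro j hj
        rw [map_mul, MulAut.mul_apply]
        rcases Finset.mem_insert.1 hj with rfl | hj'
        · rw [hD2 j l hl.1, map_mul, map_mul, map_inv, g4 l hl.2, g4 j hkJ]
        · have hjk : j ≠ k := by
            rintro rfl
            exact hkJ hj'
          rw [hD1 k l hl.1 j hjk, g3 j hj']
      · intro j hj
        rw [Finset.mem_insert, not_or] at hj
        rw [map_mul, MulAut.mul_apply, hD1 k l hl.1 j hj.1, g4 j hj.2]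
  obtain ⟨g, g1, g2, g3, g4⟩ := hclaim (Finset.univ \ {i, l}) (by simp) (by simp)
  have hgx : g * ((r i l)⁻¹ * s i l) = x l := by
    apply hinj
    apply hx.ext
    intro j
    rw [map_mul, MulAut.mul_apply, MulAut.conj_apply (x l)]
    by_cases hji : j = i
    · subst hji
      rw [hD2 j l hli, map_mul, map_mul, map_inv, g4 j (by simp), g4 l (by simp)]
    · rw [hD1 i l hli j hji]
      by_cases hjl : j = l
      · subst hjl
        rw [g4 j (by simp), mul_inv_cancel_right]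
      · exact g3 j (by simp [hji, hjl])
  have h1 : θ (g * ((r i l)⁻¹ * s i l)) (Z i : A) = (Z l : A) * Z i * ((Z l)⁻¹ : Aˣ) := by
    rw [hgx]
    exact hZ l _
  have h2 : θ ((r i l)⁻¹ * s i l) (Z i : A) = c • ((Z l : A) * Z i * ((Z l)⁻¹ : Aˣ)) := by
    apply theta_inj θ (r i l)
    have h3 : θ (r i l) (((Z l)⁻¹ : Aˣ) : A) = ((Z l)⁻¹ : Aˣ) := by
      have h4 : θ (r i l) (((Z l)⁻¹ : Aˣ) : A) * (Z l : A) = 1 := by
        rw [← (hZr i l hli).1 l hli, ← map_mul, Units.inv_mul, map_one]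
      exact Units.eq_inv_of_mul_eq_one_right h4
    rw [← theta_mul, mul_inv_cancel_left, hc1, map_smul, map_mul, map_mul, h3,
      (hZr i l hli).1 l hli, (hZr i l hli).2]
    congr 1
    rw [mul_assoc, mul_assoc, Units.mul_inv, mul_one]
  rw [theta_mul, h2, map_smul, map_mul, map_mul, g1, g2] at h1
  have h3 : θ g (((Z l)⁻¹ : Aˣ) : A) = ((Z l)⁻¹ : Aˣ) := by
    have h4 : θ g (((Z l)⁻¹ : Aˣ) : A) * (Z l : A) = 1 := by
      rw [← g2, ← map_mul, Units.inv_mul, map_one]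
    exact Units.eq_inv_of_mul_eq_one_right h4
  rw [h3] at h1
  have h5 : c = 1 := by
    apply units_smul_inj (Z l * Z i * (Z l)⁻¹) (a := (Z l : A) * Z i * ((Z l)⁻¹ : Aˣ))
    · rw [Units.val_mul, Units.val_mul]
    · rw [h1, one_smul]
  rw [hc1, h5, one_smul]

end lift

end Pool.Agent.H68.CQ
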