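import Pool.Agent.H68.CQ.Steps
import Pool.Agent.H5CS.Free

/-!
# The equivariant function algebra and the degree bound

For a group `E` of automorphisms of a group `G` and a representation `π` of `G` on `V`, the algebra
of the functions `f : E → End V` with `f (conj k * t) = π k * f t * (π k)⁻¹` carries the
multiplicative map `g ↦ (s ↦ π (s g))`, and the automorphisms in `E` act on it by right
translation.  Its dimension is at most `[E : E ∩ Inn G] * (dim V) ^ 2`.
-/

set_option autoImplicit false

namespace Pool.Agent.H68.CQ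

open Subgroup Module Pool.Agent.H5CS
open scoped commutatorElement

section model

variable {G : Type*} [Group G] {F : Type*} [Field F] {V : Type*} [AddCommGroup V] [Module F V]

/-- The equivariant functions on a group `E` of automorphisms. -/
def eqv (E : Subgroup (MulAut G)) (π : G →* Module.End F V) :
    Subalgebra F (E → Module.End F V) where
  carrier := {f | ∀ (k : G) (s t : E), (s : MulAut G) = MulAut.conj k * t →
    f s * π k = π k * f t}
  mul_mem' := by
    intro f g hf hg k s t h
    rw [Pi.mul_apply, Pi.mul_apply, mul_assoc, hg k s t h, ← mul_assoc, hf k s t h, mul_assoc]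
  add_mem' := by
    intro f g hf hg k s t h
    rw [Pi.add_apply, Pi.add_apply, add_mul, mul_add, hg k s t h, hf k s t h]
  algebraMap_mem' := by
    intro c k s t _
    rw [Pi.algebraMap_apply, Pi.algebraMap_apply]
    exact Algebra.commutes _ _

/-- The map `g ↦ (s ↦ π (s g))`. -/
def ePi (E : Subgroup (MulAut G)) (π : G →* Module.End F V) : G →* eqv E π where
  toFun g := ⟨fun s => π ((s : MulAut G) g), by
    intro k s t h
    change π ((s : MulAut G) g) * π k = π k * π ((t : MulAut G) g)
    rw [h, MulAut.mul_apply, MulAut.conj_apply, ← map_mul, inv_mul_cancel_right, map_mul]⟩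
  map_one' := by
    apply Subtype.ext
    funext s
    change π ((s : MulAut G) 1) = 1
    rw [map_one, map_one]
  map_mul' g h := by
    apply Subtype.ext
    funext s
    change π ((s : MulAut G) (g * h)) = π ((s : MulAut G) g) * π ((s : MulAut G) h)
    rw [map_mul, map_mul]

lemma ePi_apply (E : Subgroup (MulAut G)) (π : G →* Module.End F V) (g : G) (s : E) :
    (ePi E π g : E → Module.End F V) s = π ((s : MulAut G) g) := rfl

/-- Right translation by an element of `E`. -/
def eTr (E : Subgroup (MulAut G)) (π : G →* Module.End F V) (τ : E) : eqv E π →ₐ[F] eqv E π where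
  toFun f := ⟨fun s => (f : E → Module.End F V) (s * τ), by
    intro k s t h
    apply f.2 k (s * τ) (t * τ)
    rw [Subgroup.coe_mul, Subgroup.coe_mul, h, mul_assoc]⟩
  map_one' := rfl
  map_mul' _ _ := rfl
  map_zero' := rfl
  map_add' _ _ := rfl
  commutes' _ := rfl

lemma eTr_ePi (E : Subgroup (MulAut G)) (π : G →* Module.End F V) (τ : E) (g : G) :
    eTr E π τ (ePi E π g) = ePi E π ((τ : MulAut G) g) := rfl

lemma hasTr_ePi {n : ℕ} {x : Fin n → G} (hx : Homog x) (E : Subgroup (MulAut G))
    (hE : ∀ φ, IsTr x φ → φ ∈ E) (π : G →* Module.End F V) : HasTr F x (ePi E π) := by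
  intro i u v hu hv
  obtain ⟨φ, hφ, h1, h2⟩ := hx.exTr i (inv_mem hu) hv
  refine ⟨eTr E π ⟨φ, hE φ hφ⟩, ?_, ?_⟩
  · intro j hj
    rw [eTr_ePi]
    exact congrArg _ (h1 j hj)
  · rw [eTr_ePi]
    change ePi E π (φ (x i)) = _
    rw [h2, inv_inv]

lemma exists_rep (E : Subgroup (MulAut G)) (π : G →* Module.End F V) (a : eqv E π) (ha : a ≠ 0) :
    ∃ Φ : eqv E π →ₐ[F] Module.End F V, Φ a ≠ 0 := by
  obtain ⟨s, hs⟩ : ∃ s, (a : E → Module.End F V) s ≠ 0 := by
    by_contra hcon
    push Not at hcon
    exact ha (Subtype.ext (funext hcon))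
  exact ⟨(Pi.evalAlgHom F (fun _ : E => Module.End F V) s).comp (eqv E π).val, hs⟩

lemma finrank_eqv [Finite G] [FiniteDimensional F V] (E : Subgroup (MulAut G))
    (π : G →* Module.End F V) :
    finrank F (eqv E π) ≤ (MulAut.conj (G := G)).range.relIndex E * finrank F V ^ 2 := by
  classical
  have hfin : Finite (MulAut G) := finite_mulAut
  have hfin2 : Finite E := inferInstance
  set N : Subgroup E := (MulAut.conj (G := G)).range.subgroupOf E with hN
  have hfin3 : Fintype (E ⧸ N) := Fintype.ofFinite _
  let ev : eqv E π →ₗ[F] ((E ⧸ N) → Module.End F V) :=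
    { toFun := fun f q => (f : E → Module.End F V) q.out
      map_add' := fun _ _ => rfl
      map_smul' := fun _ _ => rfl }
  have hinj : Function.Injective ev := by
    rw [injective_iff_map_eq_zero]
    intro f hf
    apply Subtype.ext
    funext s
    have h1 : (((s : E ⧸ N).out : E) : E ⧸ N) = (s : E ⧸ N) := QuotientGroup.out_eq' _
    rw [QuotientGroup.eq, hN, mem_subgroupOf] at h1
    obtain ⟨k, hk⟩ := h1
    have h2 : (f : E → Module.End F V) (s : E ⧸ N).out = 0 := congrFun hf (s : E ⧸ N)
    have h3 : (s : MulAut G) = MulAut.conj ((((s : E ⧸ N).out : E) : MulAut G) k) *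
        (((s : E ⧸ N).out : E) : MulAut G) := by
      have h4 : (s : MulAut G) = (((s : E ⧸ N).out : E) : MulAut G) * MulAut.conj k := by
        rw [hk, Subgroup.coe_mul, InvMemClass.coe_inv, mul_inv_cancel_left]
      rw [h4]
      ext g
      simp [MulAut.mul_apply, MulAut.conj_apply]
    have h5 := f.2 _ s _ h3
    rw [h2, mul_zero] at h5
    have h6 : (f : E → Module.End F V) s *
        (π ((((s : E ⧸ N).out : E) : MulAut G) k) *
          π ((((s : E ⧸ N).out : E) : MulAut G) k)⁻¹) = 0 := by
      rw [← mul_assoc, h5, zero_mul]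
    rw [← map_mul, mul_inv_cancel, map_one, mul_one] at h6
    exact h6
  have h7 := LinearMap.finrank_le_finrank_of_injective hinj
  rw [finrank_pi_fintype, Finset.sum_const, Finset.card_univ, smul_eq_mul,
    Module.finrank_linearMap] at h7
  have h8 : Fintype.card (E ⧸ N) = (MulAut.conj (G := G)).range.relIndex E := by
    rw [relIndex, ← hN, index, Nat.card_eq_fintype_card]
  rw [h8] at h7
  rw [pow_two]
  exact h7

end model

lemma perfect_of_simple {G : Type*} [Group G] [IsSimpleGroup G] (h : ¬ ∀ a b : G, a * b = b * a) :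
    commutator G = ⊤ := by
  rcases (inferInstance : (commutator G).Normal).eq_bot_or_eq_top with h0 | h0
  · exfalso
    apply h
    intro a b
    have h1 : ⁅a, b⁆ ∈ commutator G := commutator_mem_commutator (mem_top a) (mem_top b)
    rw [h0, mem_bot, commutatorElement_eq_one_iff_mul_comm] at h1
    exact h1
  · exact h0

lemma two_le_finrank {G : Type*} [Group G] (hperf : commutator G = ⊤) {F : Type*} [Field F]
    {V : Type*} [AddCommGroup V] [Module F V] [FiniteDimensional F V] (π : G →* Module.End F V)
    (hπ : ∃ g, π g ≠ 1) : 2 ≤ finrank F V := by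
  by_contra hcon
  have h1 : ∀ a b : Module.End F V, a * b = b * a := by
    intro a b
    by_cases h0 : finrank F V = 0
    · have h2 : Subsingleton V := Module.finrank_zero_iff.1 h0
      exact Subsingleton.elim _ _
    · have h2 : finrank F V = 1 := by omega
      have h3 : finrank F (Module.End F V) = 1 := by
        rw [Module.finrank_linearMap, h2]
      have hnt : Nontrivial V := Module.nontrivial_of_finrank_pos (R := F) (by omega)
      have h4 := (finrank_eq_one_iff_of_nonzero' (1 : Module.End F V) one_ne_zero).1 h3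
      obtain ⟨c, rfl⟩ := h4 a
      rw [smul_mul_assoc, one_mul, mul_smul_comm, mul_one]
  obtain ⟨g, hg⟩ := hπ
  apply hg
  have h5 : commutator G ≤ π.ker := by
    rw [commutator_def, Subgroup.commutator_le]
    intro a _ b _
    rw [MonoidHom.mem_ker, commutatorElement_def, map_mul, map_mul, map_mul,
      h1 (π a) (π b), mul_assoc (π b), ← map_mul, mul_inv_cancel, map_one, mul_one, ← map_mul,
      mul_inv_cancel, map_one]
  rw [hperf] at h5
  exact h5 (mem_top g)

/-- The degree bound. -/
theorem degree_bound {n : ℕ} {G : Type*} [Group G] [Finite G] [IsSimpleGroup G] {x : Fin n → G}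
    (hx : Homog x) (hn : 2 ≤ n) (E : Subgroup (MulAut G)) (hE : ∀ φ, IsTr x φ → φ ∈ E)
    {F : Type*} [Field F] {V : Type*} [AddCommGroup V] [Module F V] [FiniteDimensional F V]
    (π : G →* Module.End F V) (hπ : ∃ g, π g ≠ 1) :
    2 ^ n ≤ ((MulAut.conj (G := G)).range.relIndex E) ^ 2 * (finrank F V) ^ 5 := by
  have hfin : Finite (MulAut G) := finite_mulAut
  have hperf : commutator G = ⊤ := perfect_of_simple (hx.not_comm hn)
  set d := finrank F V with hd
  set c := (MulAut.conj (G := G)).range.relIndex E with hc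
  have hd2 : 2 ≤ d := two_le_finrank hperf π hπ
  have hc0 : c ≠ 0 := by
    rw [hc, relIndex]
    exact index_ne_zero_of_finite
  have hcd : c * d ^ 2 ≠ 0 := mul_ne_zero hc0 (pow_ne_zero _ (by omega))
  have hT := hasTr_ePi (F := F) hx E hE π
  have hfd : FiniteDimensional F (eqv E π) := by
    have h1 : Finite E := inferInstance
    exact FiniteDimensional.finiteDimensional_subalgebra _
  have hlog : 1 ≤ Nat.log 2 d := Nat.log_pos (by norm_num) hd2
  have hR : Rm F x (ePi E π) (Nat.log 2 d + 1) := by
    intro Q hQ a ha c hc b hb h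
    exact hT.removal (V := V) (by omega) (Nat.lt_pow_succ_log_self (by norm_num) d)
      (exists_rep E π) Q hQ ha hc hb h
  have hA : finrank F (eqv E π) < 2 ^ (Nat.log 2 (c * d ^ 2) + 1) :=
    (finrank_eqv E π).trans_lt (Nat.lt_pow_succ_log_self (by norm_num) _)
  have hlog2 : 1 ≤ Nat.log 2 (c * d ^ 2) := by
    apply Nat.log_pos (by norm_num)
    calc 2 ≤ 1 * 2 ^ 2 := by norm_num
      _ ≤ c * d ^ 2 := Nat.mul_le_mul (Nat.one_le_iff_ne_zero.2 hc0) (Nat.pow_le_pow_left hd2 2)
  have hlt : n + 2 < 2 * (Nat.log 2 (c * d ^ 2) + 1) + (Nat.log 2 d + 1) := by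
    by_contra hcon
    have h1 := hT.trivial hx.gen hperf hR (by omega) (by omega) hA (by omega)
    obtain ⟨g, hg⟩ := hπ
    apply hg
    have h2 : (ePi E π g : E → Module.End F V) 1 = ((1 : eqv E π) : E → Module.End F V) 1 := by
      rw [h1 g]
    exact h2
  calc 2 ^ n ≤ 2 ^ (Nat.log 2 (c * d ^ 2) * 2 + Nat.log 2 d) :=
        Nat.pow_le_pow_right (by norm_num) (by omega)
    _ = (2 ^ Nat.log 2 (c * d ^ 2)) ^ 2 * 2 ^ Nat.log 2 d := by rw [pow_add, pow_mul]
    _ ≤ (c * d ^ 2) ^ 2 * d :=
        Nat.mul_le_mul (Nat.pow_le_pow_left (Nat.pow_log_le_self _ hcd) 2)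
          (Nat.pow_log_le_self _ (by omega))
    _ = c ^ 2 * d ^ 5 := by ring

end Pool.Agent.H68.CQ
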