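import Pool.Agent.H68.CQ.Lift

/-!
# The degree bound for projective representations

If the substitutions are inner and there are at least four letters, then every nontrivial
homomorphism to `PGL (Fin d) F` satisfies `2 ^ n ≤ d ^ 5`.
-/

set_option autoImplicit false

namespace Pool.Agent.H68.CQ

open Subgroup Module Pool.Agent.H5CS
open scoped commutatorElement

section core

variable {n : ℕ} {G : Type*} [Group G] {F : Type*} [Field F] {A : Type*} [Ring A] [Algebra F A]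
  {x : Fin n → G}

/-- The tuple `Z` of units as a tuple of elements of the group generated by it. -/
def zt (Z : Fin n → Aˣ) (l : Fin n) : closure (Set.range Z) := ⟨Z l, subset_closure ⟨l, rfl⟩⟩

/-- The group generated by `Z` acting on the algebra. -/
def zP (Z : Fin n → Aˣ) : closure (Set.range Z) →* A :=
  (Units.coeHom A).comp (closure (Set.range Z)).subtype

lemma zP_apply (Z : Fin n → Aˣ) (w : closure (Set.range Z)) : zP Z w = ((w : Aˣ) : A) := rfl

lemma zP_zt (Z : Fin n → Aˣ) (l : Fin n) : zP Z (zt Z l) = (Z l : A) := rfl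

lemma zt_gen (Z : Fin n → Aˣ) : closure (Set.range (zt Z)) = ⊤ := by
  rw [eq_top_iff]
  rintro ⟨w, hw⟩ -
  have h1 : (closure (Set.range (zt Z))).map (closure (Set.range Z)).subtype =
      closure (Set.range Z) := by
    rw [MonoidHom.map_closure, ← Set.range_comp]
    rfl
  rw [← h1] at hw
  obtain ⟨w', hw', hw''⟩ := hw
  have h2 : w' = ⟨w, h1 ▸ ⟨w', hw', hw''⟩⟩ := Subtype.ext hw''
  rw [← h2]
  exact hw'

variable {θ : G →* (A ≃ₐ[F] A)} {Z : Fin n → Aˣ}

lemma theta_inv_fix {g : G} {t : A} (h : θ g t = t) : θ g⁻¹ t = t := by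
  apply theta_inj θ g
  rw [theta_inv_self, h]

lemma fix_word {g : G} {i : Fin n} (h : ∀ j, j ≠ i → θ g (Z j : A) = Z j)
    {w : closure (Set.range Z)} (hw : w ∈ closure (zt Z '' {j | j ≠ i})) :
    θ g (zP Z w) = zP Z w :=
  fix_closure (x := zt Z) (P := zP Z) (T := (θ g : A ≃ₐ[F] A).toAlgHom) (S := {j | j ≠ i})
    (fun j hj => h j hj) w hw

lemma ex_right (hr : ∀ i l, l ≠ i →
    ∃ g : G, (∀ j, j ≠ i → θ g (Z j : A) = Z j) ∧ θ g (Z i : A) = Z i * Z l) (i : Fin n)
    {v : closure (Set.range Z)} (hv : v ∈ closure (zt Z '' {j | j ≠ i})) :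
    ∃ g : G, (∀ j, j ≠ i → θ g (Z j : A) = Z j) ∧ θ g (Z i : A) = Z i * zP Z v := by
  induction hv using closure_induction with
  | mem y hy =>
    obtain ⟨l, hl, rfl⟩ := hy
    exact hr i l hl
  | one =>
    refine ⟨1, ?_, ?_⟩
    · intro j _
      rw [map_one, AlgEquiv.one_apply]
    · rw [map_one, AlgEquiv.one_apply, map_one, mul_one]
  | mul y w hy hw ihy ihw =>
    obtain ⟨g, g1, g2⟩ := ihy
    obtain ⟨h, h1, h2⟩ := ihw
    refine ⟨g * h, ?_, ?_⟩
    · intro j hj
      rw [theta_mul, h1 j hj, g1 j hj]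
    · rw [theta_mul, h2, map_mul, g2, fix_word g1 hw, map_mul, mul_assoc]
  | inv y hy ihy =>
    obtain ⟨g, g1, g2⟩ := ihy
    refine ⟨g⁻¹, fun j hj => theta_inv_fix (g1 j hj), ?_⟩
    apply theta_inj θ g
    rw [theta_inv_self, map_mul, g2, fix_word g1 (inv_mem hy), mul_assoc, ← map_mul,
      mul_inv_cancel, map_one, mul_one]

lemma ex_left (hr : ∀ i l, l ≠ i →
    ∃ g : G, (∀ j, j ≠ i → θ g (Z j : A) = Z j) ∧ θ g (Z i : A) = Z l * Z i) (i : Fin n)
    {v : closure (Set.range Z)} (hv : v ∈ closure (zt Z '' {j | j ≠ i})) :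
    ∃ g : G, (∀ j, j ≠ i → θ g (Z j : A) = Z j) ∧ θ g (Z i : A) = zP Z v * Z i := by
  induction hv using closure_induction with
  | mem y hy =>
    obtain ⟨l, hl, rfl⟩ := hy
    exact hr i l hl
  | one =>
    refine ⟨1, ?_, ?_⟩
    · intro j _
      rw [map_one, AlgEquiv.one_apply]
    · rw [map_one, AlgEquiv.one_apply, map_one, one_mul]
  | mul y w hy hw ihy ihw =>
    obtain ⟨g, g1, g2⟩ := ihy
    obtain ⟨h, h1, h2⟩ := ihw
    refine ⟨h * g, ?_, ?_⟩
    · intro j hj
      rw [theta_mul, g1 j hj, h1 j hj]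
    · rw [theta_mul, g2, map_mul, h2, fix_word h1 hy, map_mul, mul_assoc]
  | inv y hy ihy =>
    obtain ⟨g, g1, g2⟩ := ihy
    refine ⟨g⁻¹, fun j hj => theta_inv_fix (g1 j hj), ?_⟩
    apply theta_inj θ g
    rw [theta_inv_self, map_mul, g2, fix_word g1 (inv_mem hy), ← mul_assoc, ← map_mul,
      inv_mul_cancel, map_one, one_mul]

lemma hasTr_zP (hZ : ∀ i l, l ≠ i →
      (∃ g : G, (∀ j, j ≠ i → θ g (Z j : A) = Z j) ∧ θ g (Z i : A) = Z i * Z l) ∧
      (∃ g : G, (∀ j, j ≠ i → θ g (Z j : A) = Z j) ∧ θ g (Z i : A) = Z l * Z i)) :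
    HasTr F (zt Z) (zP Z) := by
  intro i u v hu hv
  obtain ⟨g, g1, g2⟩ := ex_left (fun i l hl => (hZ i l hl).2) i hu
  obtain ⟨h, h1, h2⟩ := ex_right (fun i l hl => (hZ i l hl).1) i hv
  refine ⟨(θ (g * h) : A ≃ₐ[F] A).toAlgHom, ?_, ?_⟩
  · intro j hj
    change θ (g * h) (Z j : A) = Z j
    rw [theta_mul, h1 j hj, g1 j hj]
  · change θ (g * h) (Z i : A) = zP Z (u * zt Z i * v)
    rw [theta_mul, h2, map_mul, g2, fix_word g1 hv, map_mul, map_mul]
    rfl

lemma ex_inner (hgen : closure (Set.range x) = ⊤) (hl : ∀ l, Lf θ (x l) (Z l)) (g : G) :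
    ∃ w : closure (Set.range Z), Lf θ g (w : Aˣ) := by
  have hg : g ∈ closure (Set.range x) := by rw [hgen]; trivial
  induction hg using closure_induction with
  | mem y hy =>
    obtain ⟨l, rfl⟩ := hy
    exact ⟨zt Z l, hl l⟩
  | one =>
    refine ⟨1, ?_⟩
    intro t
    rw [map_one, AlgEquiv.one_apply, Subgroup.coe_one, inv_one, Units.val_one, one_mul, mul_one]
  | mul y w _ _ ihy ihw =>
    obtain ⟨a, ha⟩ := ihy
    obtain ⟨b, hb⟩ := ihw
    exact ⟨a * b, ha.mul hb⟩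
  | inv y _ ihy =>
    obtain ⟨a, ha⟩ := ihy
    refine ⟨a⁻¹, ?_⟩
    intro t
    apply theta_inj θ y
    rw [theta_inv_self, ha, Subgroup.coe_inv, inv_inv]
    simp only [mul_assoc, Units.mul_inv, mul_one, Units.mul_inv_cancel_left]

lemma perfect_zt (hn : 2 ≤ n) (hgen : closure (Set.range x) = ⊤) (hl : ∀ l, Lf θ (x l) (Z l))
    (hZ : ∀ i l, l ≠ i →
      ∃ g : G, (∀ j, j ≠ i → θ g (Z j : A) = Z j) ∧ θ g (Z i : A) = Z i * Z l) :
    commutator (closure (Set.range Z)) = ⊤ := by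
  rw [eq_top_iff, ← zt_gen Z, closure_le]
  rintro _ ⟨l, rfl⟩
  obtain ⟨i, hi⟩ : ∃ i : Fin n, l ≠ i := by
    by_cases h : l = ⟨0, by omega⟩
    · refine ⟨⟨1, by omega⟩, ?_⟩
      rw [h]
      intro hh
      have := congrArg Fin.val hh
      simp at this
    · exact ⟨_, h⟩
  obtain ⟨g, -, hg⟩ := hZ i l hi
  obtain ⟨w, hw⟩ := ex_inner hgen hl g
  rw [hw] at hg
  have h1 : w * zt Z i * w⁻¹ = zt Z i * zt Z l := by
    apply Subtype.ext
    apply Units.ext
    exact hg
  have h2 : zt Z l = ⁅(zt Z i)⁻¹, w⁆ := by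
    rw [commutatorElement_def, inv_inv]
    calc zt Z l = (zt Z i)⁻¹ * (zt Z i * zt Z l) := by group
      _ = _ := by rw [← h1]; group
  rw [h2]
  exact commutator_mem_commutator (mem_top _) (mem_top _)

end core

/-- Conjugation with units. -/
def cj (F : Type*) [Field F] (A : Type*) [Ring A] [Algebra F A] : Aˣ →* (A ≃ₐ[F] A) where
  toFun u :=
    { toFun := fun t => (u : A) * t * ((u⁻¹ : Aˣ) : A)
      invFun := fun t => ((u⁻¹ : Aˣ) : A) * t * (u : A)
      left_inv := fun t => by simp [mul_assoc]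
      right_inv := fun t => by simp [mul_assoc]
      map_mul' := fun s t => by simp [mul_assoc]
      map_add' := fun s t => by simp [mul_add, add_mul]
      commutes' := fun c => by
        rw [← Algebra.commutes, mul_assoc, Units.mul_inv, mul_one] }
  map_one' := by
    ext t
    simp
  map_mul' u v := by
    ext t
    simp [mul_assoc]

lemma cj_apply {F : Type*} [Field F] {A : Type*} [Ring A] [Algebra F A] (u : Aˣ) (t : A) :
    cj F A u t = (u : A) * t * ((u⁻¹ : Aˣ) : A) := rfl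

lemma two_le_of_pgl {F : Type*} [Field F] {d : ℕ} {G : Type*} [Group G]
    (ρ : G →* Matrix.ProjGenLinGroup (Fin d) F) (hρ : ρ ≠ 1) : 2 ≤ d := by
  by_contra hcon
  apply hρ
  have hs : Subsingleton (Fin d) := ⟨fun a b => Fin.ext (by omega)⟩
  have hcomm : ∀ a b : Matrix (Fin d) (Fin d) F, a * b = b * a := by
    intro a b
    ext i j
    rw [Matrix.mul_apply, Matrix.mul_apply]
    apply Finset.sum_congr rfl
    intro k _
    rw [Subsingleton.elim k i, Subsingleton.elim j i, mul_comm]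
  ext g
  obtain ⟨a, ha⟩ := Matrix.ProjGenLinGroup.mk_surjective (ρ g)
  rw [MonoidHom.one_apply, ← ha, Matrix.ProjGenLinGroup.mk_eq_one, mem_center_iff]
  intro b
  apply Units.ext
  exact hcomm _ _

/-- The degree bound for projective representations. -/
theorem proj_bound {n : ℕ} {G : Type*} [Group G] [IsSimpleGroup G] {x : Fin n → G}
    (hx : Homog x) (hn : 3 ≤ n)
    (hE : ∀ φ, IsTr x φ → φ ∈ (MulAut.conj (G := G)).range)
    {F : Type*} [Field F] {d : ℕ} (ρ : G →* Matrix.ProjGenLinGroup (Fin d) F) (hρ : ρ ≠ 1) :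
    2 ^ n ≤ d ^ 5 := by
  have hd2 : 2 ≤ d := two_le_of_pgl ρ hρ
  by_cases hn3 : n = 3
  · subst hn3
    calc 2 ^ 3 ≤ 2 ^ 5 := by norm_num
      _ ≤ d ^ 5 := Nat.pow_le_pow_left hd2 5
  have hnt : Nontrivial (Matrix (Fin d) (Fin d) F) := by
    have : Nonempty (Fin d) := ⟨⟨0, by omega⟩⟩
    infer_instance
  have hsc : (cj F (Matrix (Fin d) (Fin d) F)).comp
      (Matrix.GeneralLinearGroup.scalar (Fin d)) = 1 := by
    ext1 c
    apply AlgEquiv.ext
    intro t
    change ((Matrix.GeneralLinearGroup.scalar (Fin d) c :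
        Matrix.GeneralLinearGroup (Fin d) F) : Matrix (Fin d) (Fin d) F) * t *
      (((Matrix.GeneralLinearGroup.scalar (Fin d) c)⁻¹ :
        Matrix.GeneralLinearGroup (Fin d) F) : Matrix (Fin d) (Fin d) F) = t
    have h1 : ((Matrix.GeneralLinearGroup.scalar (Fin d) c :
        Matrix.GeneralLinearGroup (Fin d) F) : Matrix (Fin d) (Fin d) F) =
        algebraMap F (Matrix (Fin d) (Fin d) F) c := rfl
    rw [h1, Algebra.commutes, mul_assoc, ← h1, Units.mul_inv, mul_one]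
  let θ : G →* (Matrix (Fin d) (Fin d) F ≃ₐ[F] Matrix (Fin d) (Fin d) F) :=
    (Matrix.ProjGenLinGroup.lift (cj F (Matrix (Fin d) (Fin d) F)) hsc).comp ρ
  choose Y hYρ using fun l => Matrix.ProjGenLinGroup.mk_surjective (ρ (x l))
  have hY : ∀ l, Lf θ (x l) (Y l) := by
    intro l t
    change Matrix.ProjGenLinGroup.lift (cj F (Matrix (Fin d) (Fin d) F)) hsc (ρ (x l)) t = _
    rw [← hYρ l]
    rfl
  have hcen : ∀ a : Matrix (Fin d) (Fin d) F, (∀ t, a * t = t * a) →
      ∃ c : F, a = algebraMap F _ c := by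
    intro a ha
    have h1 : a ∈ Subalgebra.center F (Matrix (Fin d) (Fin d) F) := by
      rw [Subalgebra.mem_center_iff]
      exact fun b => (ha b).symm
    rw [Algebra.IsCentral.center_eq_bot, Algebra.mem_bot] at h1
    obtain ⟨c, hc⟩ := h1
    exact ⟨c, hc.symm⟩
  obtain ⟨Z, hZ1, hZ2⟩ := lift_tuple hx (by omega) hE (conj_injective (hx.not_comm (by omega))) θ
    hcen Y hY
  have hT : HasTr F (zt Z) (zP Z) := hasTr_zP hZ2
  have hperf := perfect_zt (by omega) hx.gen hZ1 (fun i l hl => (hZ2 i l hl).1)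
  have hrep : ∀ a : Matrix (Fin d) (Fin d) F, a ≠ 0 →
      ∃ Φ : Matrix (Fin d) (Fin d) F →ₐ[F] Module.End F (Fin d → F), Φ a ≠ 0 := by
    intro a ha
    refine ⟨(Matrix.toLinAlgEquiv' (R := F) (n := Fin d)).toAlgHom, ?_⟩
    intro h
    apply ha
    apply (Matrix.toLinAlgEquiv' (R := F) (n := Fin d)).injective
    rw [map_zero]
    exact h
  have hlog : 1 ≤ Nat.log 2 d := Nat.log_pos (by norm_num) hd2
  have hR : Rm F (zt Z) (zP Z) (Nat.log 2 d + 1) := by
    intro Q hQ a ha c hc b hb h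
    refine hT.removal (V := Fin d → F) (by omega) ?_ hrep Q hQ ha hc hb h
    rw [Module.finrank_fin_fun]
    exact Nat.lt_pow_succ_log_self (by norm_num) d
  have hA : finrank F (Matrix (Fin d) (Fin d) F) < 2 ^ (Nat.log 2 (d ^ 2) + 1) := by
    have h1 : finrank F (Matrix (Fin d) (Fin d) F) = d ^ 2 := by
      rw [Module.finrank_matrix]
      simp [pow_two]
    rw [h1]
    exact Nat.lt_pow_succ_log_self (by norm_num) _
  have hlog2 : 1 ≤ Nat.log 2 (d ^ 2) := by
    apply Nat.log_pos (by norm_num)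
    calc 2 ≤ 2 ^ 2 := by norm_num
      _ ≤ d ^ 2 := Nat.pow_le_pow_left hd2 2
  have hlt : n + 2 < 2 * (Nat.log 2 (d ^ 2) + 1) + (Nat.log 2 d + 1) := by
    by_contra hcon
    have h1 := hT.trivial (zt_gen Z) hperf hR (by omega) (by omega) hA (by omega)
    apply hρ
    apply MonoidHom.eq_of_eqOn_dense hx.gen
    rintro _ ⟨l, rfl⟩
    rw [MonoidHom.one_apply, ← hYρ l, Matrix.ProjGenLinGroup.mk_eq_one, mem_center_iff]
    intro b
    have h2 : (Z l : Matrix (Fin d) (Fin d) F) = 1 := h1 (zt Z l)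
    have h3 : Z l = 1 := Units.ext h2
    have h4 := hY l (b : Matrix (Fin d) (Fin d) F)
    rw [hZ1 l, h3, inv_one, Units.val_one, one_mul, mul_one] at h4
    have h5 : b = Y l * b * (Y l)⁻¹ := Units.ext h4
    calc b * Y l = Y l * b * (Y l)⁻¹ * Y l := by rw [← h5]
      _ = Y l * b := by group
  calc 2 ^ n ≤ 2 ^ (Nat.log 2 (d ^ 2) * 2 + Nat.log 2 d) :=
        Nat.pow_le_pow_right (by norm_num) (by omega)
    _ = (2 ^ Nat.log 2 (d ^ 2)) ^ 2 * 2 ^ Nat.log 2 d := by rw [pow_add, pow_mul]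
    _ ≤ (d ^ 2) ^ 2 * d :=
        Nat.mul_le_mul (Nat.pow_le_pow_left (Nat.pow_log_le_self _ (by positivity)) 2)
          (Nat.pow_log_le_self _ (by omega))
    _ = d ^ 5 := by ring

end Pool.Agent.H68.CQ
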