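import Mathlib

/-!
# The removal lemma

`x : Fin n → G` is a tuple of elements of a group, `P : G →* A` a multiplicative map to an algebra
such that the elementary substitutions `x i ↦ u * x i * v` (`u`, `v` words in the other letters)
act on `A` by algebra homomorphisms. If `a * P (x b) * c = 0`, where `a` and `c` do not involve the
letter `b` nor the letters of a set of `p` letters with `dim V < 2 ^ p`, then `a * c = 0`.
-/

set_option autoImplicit false

namespace Pool.Agent.H68.CQ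

open Subgroup

section defs

variable {n : ℕ} {G : Type*} [Group G] (F : Type*) [Field F] {A : Type*} [Ring A] [Algebra F A]

/-- The substitutions `x i ↦ u * x i * v` act on the algebra. -/
def HasTr (x : Fin n → G) (P : G →* A) : Prop :=
  ∀ (i : Fin n) (u v : G), u ∈ closure (x '' {j | j ≠ i}) → v ∈ closure (x '' {j | j ≠ i}) →
    ∃ T : A →ₐ[F] A, (∀ j, j ≠ i → T (P (x j)) = P (x j)) ∧ T (P (x i)) = P (u * x i * v)

/-- The subalgebra generated by the letters in `S`. -/
def alg (x : Fin n → G) (P : G →* A) (S : Set (Fin n)) : Subalgebra F A :=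
  Algebra.adjoin F (P '' (closure (x '' S) : Set G))

end defs

variable {n : ℕ} {G : Type*} [Group G] {F : Type*} [Field F] {A : Type*} [Ring A] [Algebra F A]
  {x : Fin n → G} {P : G →* A}

lemma alg_mono {S S' : Set (Fin n)} (h : S ⊆ S') : alg F x P S ≤ alg F x P S' :=
  Algebra.adjoin_mono (Set.image_mono (closure_mono (Set.image_mono h)))

lemma mem_alg {S : Set (Fin n)} {g : G} (hg : g ∈ closure (x '' S)) : P g ∈ alg F x P S :=
  Algebra.subset_adjoin ⟨g, hg, rfl⟩

lemma mem_alg_letter {S : Set (Fin n)} {i : Fin n} (hi : i ∈ S) : P (x i) ∈ alg F x P S :=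
  mem_alg (subset_closure ⟨i, hi, rfl⟩)

lemma fix_closure {S : Set (Fin n)} {T : A →ₐ[F] A} (h : ∀ j ∈ S, T (P (x j)) = P (x j)) :
    ∀ g ∈ closure (x '' S), T (P g) = P g := by
  intro g hg
  have h1 : Set.EqOn ((T : A →* A).comp P) P (closure (x '' S)) := by
    apply MonoidHom.eqOn_closure
    rintro _ ⟨j, hj, rfl⟩
    exact h j hj
  exact h1 hg

lemma fix_alg {S : Set (Fin n)} {T : A →ₐ[F] A} (h : ∀ j ∈ S, T (P (x j)) = P (x j)) :
    ∀ a ∈ alg F x P S, T a = a := by
  intro a ha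
  have h1 : alg F x P S ≤ AlgHom.equalizer T (AlgHom.id F A) := by
    apply Algebra.adjoin_le
    rintro _ ⟨g, hg, rfl⟩
    exact fix_closure h g hg
  exact h1 ha

lemma map_inv_eq {H : Type*} [Group H] {B : Type*} [Monoid B] (f : G →* B) (g : H →* B) {y : G}
    {z : H} (h : f y = g z) : f y⁻¹ = g z⁻¹ := by
  have h1 : g z * g z⁻¹ = 1 := by rw [← map_mul, mul_inv_cancel, map_one]
  have h2 : f y⁻¹ * f y = 1 := by rw [← map_mul, inv_mul_cancel, map_one]
  calc f y⁻¹ = f y⁻¹ * (g z * g z⁻¹) := by rw [h1, mul_one]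
    _ = (f y⁻¹ * f y) * g z⁻¹ := by rw [h, mul_assoc]
    _ = g z⁻¹ := by rw [h2, one_mul]

lemma HasTr.exists_T (hT : HasTr F x P) (i : Fin n) {u v : G}
    (hu : u ∈ closure (x '' {j | j ≠ i})) (hv : v ∈ closure (x '' {j | j ≠ i})) :
    ∃ T : A →ₐ[F] A, (∀ (S : Set (Fin n)), i ∉ S → ∀ a ∈ alg F x P S, T a = a) ∧
      T (P (x i)) = P (u * x i * v) ∧ T (P (x i)⁻¹) = P (v⁻¹ * (x i)⁻¹ * u⁻¹) := by
  obtain ⟨T, h1, h2⟩ := hT i u v hu hv
  refine ⟨T, ?_, h2, ?_⟩
  · intro S hS a ha
    exact fix_alg (S := S) (fun j hj => h1 j (fun h => hS (h ▸ hj))) a ha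
  · have h3 := map_inv_eq ((T : A →* A).comp P) P (y := x i) (z := u * x i * v) h2
    have h4 : (u * x i * v)⁻¹ = v⁻¹ * (x i)⁻¹ * u⁻¹ := by group
    rw [h4] at h3
    exact h3

/-- If `a * P (x b) * c = 0` then `a * P w * c = 0` for all words `w` in which some letter that
does not occur in `a` and `c` occurs exactly once. -/
lemma HasTr.once (hT : HasTr F x P) {Q : Set (Fin n)} {a c : A} (ha : a ∈ alg F x P Q)
    (hc : c ∈ alg F x P Q) {b : Fin n} (hb : b ∉ Q) (h : a * P (x b) * c = 0)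
    (h2 : ∀ b', ∃ b'', b'' ≠ b' ∧ b'' ∉ Q) :
    ∀ b', b' ∉ Q → ∀ u ∈ closure (x '' {j | j ≠ b'}), ∀ v ∈ closure (x '' {j | j ≠ b'}),
      a * P (u * x b' * v) * c = 0 ∧ a * P (u * (x b')⁻¹ * v) * c = 0 := by
  have key1 : ∀ b', b' ∉ Q → a * P (x b') * c = 0 := by
    intro b' hb'
    by_cases hbb : b' = b
    · rw [hbb]; exact h
    · obtain ⟨T, hT1, hT2, -⟩ := hT.exists_T b (u := 1) (v := x b') (one_mem _)
        (subset_closure ⟨b', hbb, rfl⟩)
      have h3 := congrArg T h
      rw [map_mul, map_mul, hT1 Q hb a ha, hT1 Q hb c hc, hT2, map_zero, one_mul] at h3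
      obtain ⟨T', hT1', hT2', -⟩ := hT.exists_T b' (u := (x b)⁻¹) (v := 1)
        (inv_mem (subset_closure ⟨b, fun hh => hbb hh.symm, rfl⟩)) (one_mem _)
      have h4 := congrArg T' h3
      have h5 : T' (P (x b)) = P (x b) :=
        hT1' {j | j ≠ b'} (by simp) _ (mem_alg_letter (fun hh => hbb hh.symm))
      rw [map_mul, map_mul, hT1' Q hb' a ha, hT1' Q hb' c hc, map_zero, map_mul P, map_mul, h5,
        hT2', ← map_mul P] at h4
      have h6 : x b * ((x b)⁻¹ * x b' * 1) = x b' := by group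
      rw [h6] at h4
      exact h4
  have key2 : ∀ b', b' ∉ Q → a * P (x b')⁻¹ * c = 0 := by
    intro b' hb'
    obtain ⟨b'', hne, hb''⟩ := h2 b'
    obtain ⟨T, hT1, hT2, -⟩ := hT.exists_T b'' (u := 1) (v := (x b')⁻¹) (one_mem _)
      (inv_mem (subset_closure ⟨b', fun hh => hne hh.symm, rfl⟩))
    have h3 := congrArg T (key1 b'' hb'')
    rw [map_mul, map_mul, hT1 Q hb'' a ha, hT1 Q hb'' c hc, hT2, map_zero, one_mul] at h3
    obtain ⟨T', hT1', -, hT3'⟩ := hT.exists_T b' (u := 1) (v := x b'') (one_mem _)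
      (subset_closure ⟨b'', hne, rfl⟩)
    have h4 := congrArg T' h3
    have h5 : T' (P (x b'')) = P (x b'') :=
      hT1' {j | j ≠ b'} (by simp) _ (mem_alg_letter hne)
    rw [map_mul, map_mul, hT1' Q hb' a ha, hT1' Q hb' c hc, map_zero, map_mul P, map_mul, h5,
      hT3', ← map_mul P] at h4
    have h6 : x b'' * ((x b'')⁻¹ * (x b')⁻¹ * 1⁻¹) = (x b')⁻¹ := by group
    rw [h6] at h4
    exact h4
  intro b' hb' u hu v hv
  constructor
  · obtain ⟨T, hT1, hT2, -⟩ := hT.exists_T b' hu hv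
    have h3 := congrArg T (key1 b' hb')
    rw [map_mul, map_mul, hT1 Q hb' a ha, hT1 Q hb' c hc, hT2, map_zero] at h3
    exact h3
  · obtain ⟨T, hT1, -, hT3⟩ := hT.exists_T b' (inv_mem hv) (inv_mem hu)
    have h3 := congrArg T (key2 b' hb')
    rw [map_mul, map_mul, hT1 Q hb' a ha, hT1 Q hb' c hc, hT3, map_zero, inv_inv, inv_inv] at h3
    exact h3

/-- The ordered product of the letters `x (q i)`, `i ∈ S`. -/
def pr {p : ℕ} (x : Fin n → G) (q : Fin p → Fin n) (S : Finset (Fin p)) : G :=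
  (((List.finRange p).filter (· ∈ S)).map fun i => x (q i)).prod

lemma prod_mem_of_notMem {p : ℕ} {q : Fin p → Fin n} (hq : Function.Injective q) {i : Fin p}
    {l : List (Fin p)} (h : i ∉ l) : (l.map fun i => x (q i)).prod ∈
      closure (x '' {j | j ≠ q i}) := by
  apply list_prod_mem
  intro g hg
  rw [List.mem_map] at hg
  obtain ⟨k, hk, rfl⟩ := hg
  refine subset_closure ⟨q k, ?_, rfl⟩
  intro hh
  exact h (hq hh ▸ hk)

lemma pr_split {p : ℕ} {q : Fin p → Fin n} (hq : Function.Injective q) (S : Finset (Fin p))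
    {i : Fin p} (hi : i ∈ S) : ∃ u ∈ closure (x '' {j | j ≠ q i}),
      ∃ v ∈ closure (x '' {j | j ≠ q i}), pr x q S = u * x (q i) * v := by
  have hmem : i ∈ (List.finRange p).filter (· ∈ S) := by simp [hi]
  have hnd : ((List.finRange p).filter (· ∈ S)).Nodup := (List.nodup_finRange p).filter _
  obtain ⟨l₁, l₂, hl⟩ := List.append_of_mem hmem
  rw [hl] at hnd
  rw [List.nodup_middle, List.nodup_cons, List.mem_append, not_or] at hnd
  refine ⟨_, prod_mem_of_notMem hq hnd.1.1, _, prod_mem_of_notMem hq hnd.1.2, ?_⟩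
  unfold pr
  rw [hl, List.map_append, List.prod_append, List.map_cons, List.prod_cons, mul_assoc]

lemma pr_mem {p : ℕ} {q : Fin p → Fin n} (hq : Function.Injective q) (S : Finset (Fin p))
    {i : Fin p} (hi : i ∉ S) : pr x q S ∈ closure (x '' {j | j ≠ q i}) :=
  prod_mem_of_notMem hq (by simp [hi])

/-- The removal lemma. -/
theorem HasTr.removal (hT : HasTr F x P) {V : Type*} [AddCommGroup V] [Module F V]
    [FiniteDimensional F V] {p : ℕ} (hp : 2 ≤ p) (hV : Module.finrank F V < 2 ^ p)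
    (hrep : ∀ a : A, a ≠ 0 → ∃ Φ : A →ₐ[F] Module.End F V, Φ a ≠ 0)
    (Q : Finset (Fin n)) (hQ : Q.card + p ≤ n) {a c : A} (ha : a ∈ alg F x P (Q : Set (Fin n)))
    (hc : c ∈ alg F x P (Q : Set (Fin n))) {b : Fin n} (hb : b ∉ Q)
    (h : a * P (x b) * c = 0) : a * c = 0 := by
  classical
  by_contra hne
  obtain ⟨Φ, hΦ⟩ := hrep _ hne
  obtain ⟨S, hS, hcard⟩ : ∃ S ⊆ Qᶜ, S.card = p := by
    apply Finset.exists_subset_card_eq
    rw [Finset.card_compl, Fintype.card_fin]
    omega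
  let e := S.equivFinOfCardEq hcard
  let q : Fin p → Fin n := fun i => (e.symm i : Fin n)
  have hq : Function.Injective q := fun i j hij => e.symm.injective (Subtype.ext hij)
  have hqQ : ∀ i, q i ∉ Q := fun i => Finset.mem_compl.1 (hS (e.symm i).2)
  have h2 : ∀ b', ∃ b'', b'' ≠ b' ∧ b'' ∉ (Q : Set (Fin n)) := by
    intro b'
    by_cases h0 : q ⟨0, by omega⟩ = b'
    · refine ⟨q ⟨1, by omega⟩, ?_, hqQ _⟩
      rw [← h0]
      intro hh
      have := congrArg Fin.val (hq hh)
      simp at this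
    · exact ⟨_, h0, hqQ _⟩
  have hzero := hT.once ha hc (b := b) (by simpa using hb) h h2
  obtain ⟨ξ, hξ⟩ : ∃ ξ : V, Φ (a * c) ξ ≠ 0 := by
    by_contra hcon
    push Not at hcon
    exact hΦ (LinearMap.ext hcon)
  obtain ⟨α, hα⟩ : ∃ α : Module.Dual F V, α (Φ (a * c) ξ) ≠ 0 := by
    by_contra hcon
    push Not at hcon
    exact hξ ((Module.forall_dual_apply_eq_zero_iff F _).1 hcon)
  let v : Finset (Fin p) → V := fun S => Φ (P (pr x q S) * c) ξ
  let f : Finset (Fin p) → Module.Dual F V := fun S => α ∘ₗ (Φ (a * P (pr x q S)⁻¹))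
  have hfv : ∀ S T, f T (v S) = α (Φ (a * P ((pr x q T)⁻¹ * pr x q S) * c) ξ) := by
    intro S T
    change α (Φ (a * P (pr x q T)⁻¹) (Φ (P (pr x q S) * c) ξ)) = _
    congr 1
    rw [← Module.End.mul_apply, ← map_mul, map_mul P]
    congr 2
    simp only [mul_assoc]
  have hdiag : ∀ S, f S (v S) ≠ 0 := by
    intro S
    rw [hfv, inv_mul_cancel, map_one, mul_one]
    exact hα
  have hoff : ∀ S T, S ≠ T → f T (v S) = 0 := by
    intro S T hST
    rw [hfv]
    have h3 : a * P ((pr x q T)⁻¹ * pr x q S) * c = 0 := by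
      by_cases hsub : S ⊆ T
      · -- some element of `T` is not in `S`
        obtain ⟨i, hiT, hiS⟩ : ∃ i ∈ T, i ∉ S := by
          by_contra hcon
          push Not at hcon
          exact hST (Finset.Subset.antisymm hsub hcon)
        obtain ⟨u, hu, w, hw, huw⟩ := pr_split (x := x) hq T hiT
        have h4 := (hzero (q i) (by simpa using hqQ i) w⁻¹ (inv_mem hw) (u⁻¹ * pr x q S)
          (mul_mem (inv_mem hu) (pr_mem hq S hiS))).2
        have h5 : w⁻¹ * (x (q i))⁻¹ * (u⁻¹ * pr x q S) = (pr x q T)⁻¹ * pr x q S := by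
          rw [huw]; group
        rw [h5] at h4
        exact h4
      · obtain ⟨i, hiS, hiT⟩ := Finset.not_subset.1 hsub
        obtain ⟨u, hu, w, hw, huw⟩ := pr_split (x := x) hq S hiS
        have h4 := (hzero (q i) (by simpa using hqQ i) ((pr x q T)⁻¹ * u)
          (mul_mem (inv_mem (pr_mem hq T hiT)) hu) w hw).1
        have h5 : (pr x q T)⁻¹ * u * x (q i) * w = (pr x q T)⁻¹ * pr x q S := by
          rw [huw]; group
        rw [h5] at h4
        exact h4
    rw [h3, map_zero, LinearMap.zero_apply, map_zero]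
  have hli : LinearIndependent F v := by
    rw [linearIndependent_iff']
    intro s g hg i hi
    have h6 := congrArg (f i) hg
    rw [map_sum, map_zero, Finset.sum_eq_single i] at h6
    · rw [map_smul, smul_eq_mul] at h6
      exact (mul_eq_zero.1 h6).resolve_right (hdiag i)
    · intro j _ hji
      rw [map_smul, hoff j i hji, smul_zero]
    · intro hni
      exact absurd hi hni
  have h7 := hli.fintype_card_le_finrank
  rw [Fintype.card_finset, Fintype.card_fin] at h7
  omega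

end Pool.Agent.H68.CQ
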