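import Pool.Agent.H68.CQ.Dim

/-!
# The vanishing theorem

A perfect group with a generating `n`-tuple whose substitutions act on an algebra of dimension
less than `2 ^ m` in which letters can be removed (`Rm`, a consequence of the removal lemma) has
trivial image in the algebra as soon as `2 * m + p ≤ n + 2` (and `m, p ≥ 2`).
-/

set_option autoImplicit false

namespace Pool.Agent.H68.CQ

open Subgroup Module

variable {n : ℕ} {G : Type*} [Group G] {F : Type*} [Field F] {A : Type*} [Ring A] [Algebra F A]
  {x : Fin n → G} {P : G →* A}

/-- The product of the elements `P (x e) - 1` over a list of letters. -/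
def Xp (x : Fin n → G) (P : G →* A) (t : List (Fin n)) : A := (t.map fun e => P (x e) - 1).prod

/-- Letters can be removed as long as `p` letters are free. -/
def Rm (F : Type*) [Field F] [Algebra F A] (x : Fin n → G) (P : G →* A) (p : ℕ) : Prop :=
  ∀ Q : Finset (Fin n), Q.card + p ≤ n → ∀ a ∈ alg F x P (Q : Set (Fin n)),
    ∀ c ∈ alg F x P (Q : Set (Fin n)), ∀ b, b ∉ Q → a * P (x b) * c = 0 → a * c = 0

lemma Xp_nil : Xp x P [] = 1 := by simp [Xp]

lemma Xp_cons (e : Fin n) (t : List (Fin n)) : Xp x P (e :: t) = (P (x e) - 1) * Xp x P t := by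
  simp [Xp]

lemma Xp_append (s t : List (Fin n)) : Xp x P (s ++ t) = Xp x P s * Xp x P t := by
  simp [Xp]

lemma letter_mem {S : Set (Fin n)} {e : Fin n} (he : e ∈ S) : P (x e) - 1 ∈ alg F x P S :=
  sub_mem (mem_alg_letter he) (one_mem _)

lemma Xp_mem {S : Set (Fin n)} {t : List (Fin n)} (h : ∀ e ∈ t, e ∈ S) :
    Xp x P t ∈ alg F x P S := by
  induction t with
  | nil => rw [Xp_nil]; exact one_mem _
  | cons e t ih =>
    rw [Xp_cons]
    exact mul_mem (letter_mem (h e List.mem_cons_self))
      (ih fun e' he' => h e' (List.mem_cons_of_mem _ he'))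

lemma Th_mem {S : Set (Fin n)} {s : List (Fin n × Fin n)} (h : ∀ b ∈ s.map Prod.fst, b ∈ S)
    (h' : ∀ e ∈ s.map Prod.snd, e ∈ S) : Th x P s ∈ alg F x P S := by
  induction s with
  | nil => rw [Th]; exact one_mem _
  | cons be s ih =>
    rw [List.map_cons] at h h'
    rw [Th]
    exact mul_mem (mul_mem (mem_alg_letter (h _ List.mem_cons_self))
      (letter_mem (h' _ List.mem_cons_self)))
      (ih (fun b hb => h b (List.mem_cons_of_mem _ hb))
        (fun e he => h' e (List.mem_cons_of_mem _ he)))

lemma strip {p : ℕ} (hR : Rm F x P p) (s : List (Fin n × Fin n)) :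
    ∀ (Q : Finset (Fin n)) (a : A), a ∈ alg F x P (Q : Set (Fin n)) → (s.map Prod.fst).Nodup →
      (∀ b ∈ s.map Prod.fst, b ∉ Q) → (∀ e ∈ s.map Prod.snd, e ∉ s.map Prod.fst) →
      Q.card + 2 * s.length + p ≤ n + 1 → a * Th x P s = 0 →
      a * Xp x P (s.map Prod.snd) = 0 := by
  classical
  induction s with
  | nil =>
    intro Q a _ _ _ _ _ h
    rw [Th] at h
    rw [List.map_nil, Xp_nil]
    exact h
  | cons be s ih =>
    obtain ⟨b, e⟩ := be
    intro Q a ha hnd hQ he hlen h
    rw [List.map_cons, List.nodup_cons] at hnd
    simp only [List.map_cons, List.mem_cons, forall_eq_or_imp, not_or] at hQ he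
    obtain ⟨hb, hnd⟩ := hnd
    obtain ⟨hbQ, hQ⟩ := hQ
    obtain ⟨⟨heb, hel⟩, he⟩ := he
    rw [List.length_cons] at hlen
    have hQ1 : (insert e (Q ∪ ((s.map Prod.fst).toFinset ∪ (s.map Prod.snd).toFinset))).card ≤
        Q.card + 2 * s.length + 1 := by
      have h1 := Finset.card_insert_le e
        (Q ∪ ((s.map Prod.fst).toFinset ∪ (s.map Prod.snd).toFinset))
      have h2 := Finset.card_union_le Q ((s.map Prod.fst).toFinset ∪ (s.map Prod.snd).toFinset)
      have h3 := Finset.card_union_le (s.map Prod.fst).toFinset (s.map Prod.snd).toFinset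
      have h4 := List.toFinset_card_le (s.map Prod.fst)
      have h5 := List.toFinset_card_le (s.map Prod.snd)
      rw [List.length_map] at h4 h5
      omega
    have h1 : a * ((P (x e) - 1) * Th x P s) = 0 := by
      apply hR (insert e (Q ∪ ((s.map Prod.fst).toFinset ∪ (s.map Prod.snd).toFinset)))
        (by omega) a _ _ _ b
      · simp only [Finset.mem_insert, Finset.mem_union, List.mem_toFinset, not_or]
        refine ⟨fun hh => heb hh.symm, hbQ, hb, ?_⟩
        intro hbs
        exact (he b hbs).1 rfl
      · rw [Th] at h
        rw [← h]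
        noncomm_ring
      · apply alg_mono _ ha
        intro i hi
        simp only [Finset.coe_insert, Finset.coe_union]
        exact Or.inr (Or.inl hi)
      · apply mul_mem (letter_mem (by simp))
        apply Th_mem
        · intro b' hb'
          simp only [Finset.coe_insert, Finset.coe_union, List.coe_toFinset]
          exact Or.inr (Or.inr (Or.inl hb'))
        · intro e' he'
          simp only [Finset.coe_insert, Finset.coe_union, List.coe_toFinset]
          exact Or.inr (Or.inr (Or.inr he'))
    rw [List.map_cons, Xp_cons, ← mul_assoc]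
    apply ih (insert e Q)
    · apply mul_mem
      · apply alg_mono _ ha
        rw [Finset.coe_insert]
        exact Set.subset_insert _ _
      · exact letter_mem (by simp)
    · exact hnd
    · intro b' hb'
      rw [Finset.mem_insert, not_or]
      refine ⟨?_, hQ b' hb'⟩
      rintro rfl
      exact hel hb'
    · exact fun e' he' => (he e' he').2
    · have := Finset.card_insert_le e Q
      omega
    · rw [mul_assoc]
      exact h1

lemma replace_one (hT : HasTr F x P) {p : ℕ} (hR : Rm F x P p) {t₁ t₂ : List (Fin n)}
    {e f : Fin n} (h1 : e ∉ t₁) (h2 : e ∉ t₂) (hef : e ≠ f)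
    (hlen : t₁.length + t₂.length + 1 + p ≤ n) (h : Xp x P (t₁ ++ e :: t₂) = 0) :
    Xp x P (t₁ ++ f :: t₂) = 0 := by
  classical
  obtain ⟨T, hT1, hT2, -⟩ := hT.exists_T e (u := 1) (v := x f) (one_mem _)
    (subset_closure ⟨f, fun hh => hef hh.symm, rfl⟩)
  have e1 : T (Xp x P t₁) = Xp x P t₁ := hT1 {i | i ∈ t₁} h1 _ (Xp_mem fun _ hh => hh)
  have e2 : T (Xp x P t₂) = Xp x P t₂ := hT1 {i | i ∈ t₂} h2 _ (Xp_mem fun _ hh => hh)
  rw [Xp_append, Xp_cons] at h ⊢
  have h3 := congrArg T h
  rw [map_mul, map_mul, e1, e2, map_sub, map_one, hT2, one_mul, map_mul P, map_zero] at h3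
  apply hR (insert f (t₁.toFinset ∪ t₂.toFinset)) _ (Xp x P t₁) _ _ _ e
  · simp only [Finset.mem_insert, Finset.mem_union, List.mem_toFinset, not_or]
    exact ⟨hef, h1, h2⟩
  · calc Xp x P t₁ * P (x e) * ((P (x f) - 1) * Xp x P t₂)
        = Xp x P t₁ * ((P (x e) * P (x f) - 1) * Xp x P t₂) -
          Xp x P t₁ * ((P (x e) - 1) * Xp x P t₂) := by noncomm_ring
      _ = 0 := by rw [h3, h, sub_zero]
  · have h4 := Finset.card_insert_le f (t₁.toFinset ∪ t₂.toFinset)
    have h5 := Finset.card_union_le t₁.toFinset t₂.toFinset
    have h6 := List.toFinset_card_le t₁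
    have h7 := List.toFinset_card_le t₂
    omega
  · apply Xp_mem
    intro i hi
    simp only [Finset.coe_insert, Finset.coe_union, List.coe_toFinset]
    exact Or.inr (Or.inl hi)
  · apply mul_mem (letter_mem (by simp))
    apply Xp_mem
    intro i hi
    simp only [Finset.coe_insert, Finset.coe_union, List.coe_toFinset]
    exact Or.inr (Or.inr hi)

lemma replace_all (hT : HasTr F x P) {p : ℕ} (hR : Rm F x P p) (es : List (Fin n)) :
    ∀ u t : List (Fin n), es.Nodup → (∀ e ∈ es, e ∉ u) → (∀ e ∈ es, e ∉ t) →
      es.length ≤ t.length → u.length + es.length + p ≤ n → Xp x P (u ++ es) = 0 →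
      Xp x P (u ++ t) = 0 := by
  induction es with
  | nil =>
    intro u t _ _ _ _ _ h
    rw [List.append_nil] at h
    rw [Xp_append, h, zero_mul]
  | cons e es ih =>
    intro u t hnd hu ht hlen hn h
    rw [List.nodup_cons] at hnd
    simp only [List.mem_cons, forall_eq_or_imp] at hu ht
    cases t with
    | nil => simp at hlen
    | cons f t =>
      rw [List.length_cons, List.length_cons] at hlen
      rw [List.length_cons] at hn
      simp only [List.mem_cons, not_or] at ht
      have h1 := replace_one hT hR hu.1 hnd.1 ht.1.1 (by omega) h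
      have h2 : Xp x P ((u ++ [f]) ++ es) = 0 := by
        rw [List.append_assoc, List.singleton_append]
        exact h1
      have h3 := ih (u ++ [f]) t hnd.2 (by
        intro e' he'
        rw [List.mem_append, List.mem_singleton, not_or]
        exact ⟨hu.2 e' he', (ht.2 e' he').1⟩) (fun e' he' => (ht.2 e' he').2) (by omega) (by
        rw [List.length_append, List.length_singleton]
        omega) h2
      rw [List.append_assoc, List.singleton_append] at h3
      exact h3

lemma fix_all (hgen : closure (Set.range x) = ⊤) {w : A} (h : ∀ f, P (x f) * w = w) (g : G) :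
    P g * w = w := by
  have hg : g ∈ closure (Set.range x) := by rw [hgen]; trivial
  induction hg using closure_induction with
  | mem y hy =>
    obtain ⟨f, rfl⟩ := hy
    exact h f
  | one => rw [map_one, one_mul]
  | mul y z _ _ hy hz => rw [map_mul, mul_assoc, hz, hy]
  | inv y _ hy =>
    calc P y⁻¹ * w = P y⁻¹ * (P y * w) := by rw [hy]
      _ = w := by rw [← mul_assoc, ← map_mul, inv_mul_cancel, map_one, one_mul]

lemma down (hgen : closure (Set.range x) = ⊤) (hperf : commutator G = ⊤) {c : A}
    (h : ∀ f g, (P (x f) - 1) * ((P (x g) - 1) * c) = 0) (g : G) : (P g - 1) * c = 0 := by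
  have key : ∀ h' g, P g * ((P h' - 1) * c) = (P h' - 1) * c := by
    intro h'
    have hh' : h' ∈ closure (Set.range x) := by rw [hgen]; trivial
    induction hh' using closure_induction with
    | mem y hy =>
      obtain ⟨f, rfl⟩ := hy
      apply fix_all hgen
      intro f'
      have h1 := h f' f
      rw [sub_mul, one_mul, sub_eq_zero] at h1
      exact h1
    | one => intro g; rw [map_one, sub_self, zero_mul, mul_zero]
    | mul y z _ _ hy hz =>
      have h1 : (P (y * z) - 1) * c = (P z - 1) * c + (P y - 1) * c := by
        calc (P (y * z) - 1) * c = P y * ((P z - 1) * c) + (P y - 1) * c := by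
              rw [map_mul]; noncomm_ring
          _ = _ := by rw [hz]
      intro g
      rw [h1, mul_add, hy, hz]
    | inv y _ hy =>
      have h1 : (P y⁻¹ - 1) * c = -((P y - 1) * c) := by
        have h2 : P y⁻¹ * P y = 1 := by rw [← map_mul, inv_mul_cancel, map_one]
        calc (P y⁻¹ - 1) * c = (P y⁻¹ - P y⁻¹ * P y) * c := by rw [h2]
          _ = -(P y⁻¹ * ((P y - 1) * c)) := by noncomm_ring
          _ = _ := by rw [hy]
      intro g
      rw [h1, mul_neg, hy]
  let φ : G →* Multiplicative A :=
    { toFun := fun g => Multiplicative.ofAdd ((P g - 1) * c)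
      map_one' := by rw [map_one, sub_self, zero_mul, ofAdd_zero]
      map_mul' := by
        intro y z
        rw [← ofAdd_add]
        congr 1
        calc (P (y * z) - 1) * c = P y * ((P z - 1) * c) + (P y - 1) * c := by
              rw [map_mul]; noncomm_ring
          _ = (P z - 1) * c + (P y - 1) * c := by rw [key]
          _ = _ := add_comm _ _ }
  have h1 : g ∈ φ.ker := by
    apply Abelianization.commutator_subset_ker φ
    rw [hperf]
    trivial
  exact Multiplicative.ofAdd.injective h1

/-- The vanishing theorem. -/
theorem HasTr.trivial (hT : HasTr F x P) [FiniteDimensional F A]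
    (hgen : closure (Set.range x) = ⊤) (hperf : commutator G = ⊤) {p m : ℕ}
    (hR : Rm F x P p) (hp : 2 ≤ p) (hm : 2 ≤ m) (hA : finrank F A < 2 ^ m)
    (hn : 2 * m + p ≤ n + 2) (g : G) : P g = 1 := by
  classical
  -- all products of length `m` vanish
  have hN : ∀ t : List (Fin n), t.length = m → Xp x P t = 0 := by
    intro t ht
    obtain ⟨E, hEt, hE⟩ : ∃ E ⊆ (t.toFinset)ᶜ, E.card = m := by
      apply Finset.exists_subset_card_eq
      rw [Finset.card_compl, Fintype.card_fin]
      have := List.toFinset_card_le t
      omega
    obtain ⟨B, hBE, hB⟩ : ∃ B ⊆ Eᶜ, B.card = m := by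
      apply Finset.exists_subset_card_eq
      rw [Finset.card_compl, Fintype.card_fin]
      omega
    have hl1 : B.toList.length = m := by rw [Finset.length_toList, hB]
    have hl2 : E.toList.length = m := by rw [Finset.length_toList, hE]
    have hf : (B.toList.zip E.toList).map Prod.fst = B.toList :=
      List.map_fst_zip (by omega)
    have hs : (B.toList.zip E.toList).map Prod.snd = E.toList :=
      List.map_snd_zip (by omega)
    have hlen : (B.toList.zip E.toList).length = m := by
      rw [List.length_zip, hl1, hl2, min_self]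
    have hdis : ∀ e ∈ E.toList, e ∉ B.toList := by
      intro e he hb
      rw [Finset.mem_toList] at he hb
      exact (Finset.mem_compl.1 (hBE hb)) he
    obtain ⟨s, hsub, hs0⟩ := hT.exists_zero (B.toList.zip E.toList) (by rw [hlen]; exact hA)
      (by rw [hf]; exact B.nodup_toList) (by rw [hf, hs]; exact hdis)
    have hsf : (s.map Prod.fst).Sublist B.toList := by
      have h1 := hsub.map Prod.fst
      rwa [hf] at h1
    have hss : (s.map Prod.snd).Sublist E.toList := by
      have h1 := hsub.map Prod.snd
      rwa [hs] at h1
    have hsl : s.length ≤ m := by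
      have h1 := hsub.length_le
      omega
    have h1 : Xp x P (s.map Prod.snd) = 0 := by
      cases s with
      | nil =>
        rw [Th] at hs0
        rw [List.map_nil, Xp_nil]
        exact hs0
      | cons be s =>
        obtain ⟨b, e⟩ := be
        rw [List.map_cons] at hsf hss
        rw [List.length_cons] at hsl
        have hnd := B.nodup_toList.sublist hsf
        have hnd' := E.nodup_toList.sublist hss
        rw [List.nodup_cons] at hnd hnd'
        have h3 : (P (x e) - 1) * Th x P s = 0 := by
          rw [Th, mul_assoc] at hs0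
          calc (P (x e) - 1) * Th x P s
              = P (x b)⁻¹ * (P (x b) * ((P (x e) - 1) * Th x P s)) := by
                rw [← mul_assoc, ← map_mul, inv_mul_cancel, map_one, one_mul]
            _ = 0 := by rw [hs0, mul_zero]
        rw [List.map_cons, Xp_cons]
        have heB : e ∉ B.toList := hdis e (hss.subset List.mem_cons_self)
        refine strip hR s {e} _ (letter_mem (by simp)) hnd.2 ?_ ?_ ?_ h3
        · intro b' hb'
          rw [Finset.mem_singleton]
          rintro rfl
          exact heB (hsf.subset (List.mem_cons_of_mem _ hb'))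
        · intro e' he' hb'
          exact hdis e' (hss.subset (List.mem_cons_of_mem _ he'))
            (hsf.subset (List.mem_cons_of_mem _ hb'))
        · rw [Finset.card_singleton]
          omega
    have h2 := replace_all hT hR (s.map Prod.snd) [] t (E.nodup_toList.sublist hss)
      (fun _ _ => by simp) (by
        intro e he het
        have h3 := hss.subset he
        rw [Finset.mem_toList] at h3
        have h4 := hEt h3
        rw [Finset.mem_compl, List.mem_toFinset] at h4
        exact h4 het) (by rw [List.length_map]; omega) (by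
        rw [List.length_map, List.length_nil]
        omega) h1
    exact h2
  -- descent
  have hdesc : ∀ j, 1 ≤ j → (∀ t : List (Fin n), t.length = j → Xp x P t = 0) →
      ∀ t : List (Fin n), t.length = 1 → Xp x P t = 0 := by
    intro j hj
    induction j, hj using Nat.le_induction with
    | base => exact fun h => h
    | succ j hj ih =>
      intro h
      apply ih
      intro t ht
      cases t with
      | nil => simp at ht; omega
      | cons f t =>
        rw [List.length_cons] at ht
        rw [Xp_cons]
        apply down hgen hperf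
        intro f' g'
        have h1 := h (f' :: g' :: t) (by simp only [List.length_cons]; omega)
        rw [Xp_cons, Xp_cons] at h1
        exact h1
  have h1 : ∀ f, P (x f) * 1 = 1 := by
    intro f
    have h2 := hdesc m (by omega) hN [f] rfl
    rw [Xp_cons, Xp_nil, mul_one, sub_eq_zero] at h2
    rw [mul_one]
    exact h2
  have h3 := fix_all hgen h1 g
  rwa [mul_one] at h3

end Pool.Agent.H68.CQ
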